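import Pool.Agent.Helper32_ND.Defs2
import Pool.Agent.Helper8_CR.BStmts

/-!
# The n/d theorem: statements of the modules
-/

set_option autoImplicit false
set_option linter.unusedVariables false
set_option linter.unusedSectionVars false

namespace Pool.Agent.ND

open Finset

/-! ## Part R: the bilinear forms -/

/-- MODULE RSYM -/
def RsymStmt : Prop :=
  ∀ (ι : Type) [Fintype ι] [DecidableEq ι] (n : ℕ) (A : Arr ι n) (K : Type) [Field K] (ρ : ι → K)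
    (r : ℕ) (a b : OS A K r), R A ρ r a b = R A ρ r b a

/-- MODULE RADJ: the adjoint of the wedge product with `ρ` is the boundary -/
def RadjStmt : Prop :=
  ∀ (ι : Type) [Fintype ι] [DecidableEq ι] (n : ℕ) (A : Arr ι n) (K : Type) [Field K] (ρ : ι → K),
    NR ρ → ∀ (r : ℕ) (c : OS A K r) (b : OS A K (r + 1)),
      R A ρ (r + 1) (wX r ρ univ c) b = R A ρ r c (bd A K r b)

/-- MODULE RLOC: locality, homogeneity, integrality and diagonal values of the forms -/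
def RlocStmt : Prop :=
  ∀ (ι : Type) [Fintype ι] [DecidableEq ι] (n : ℕ) (A : Arr ι n) (K : Type) [Field K],
    (∀ (ρ ρ' : ι → K) (r : ℕ) (F : Fin r → ι), (∀ i ∈ A.cl F, ρ i = ρ' i) →
      ∀ b : OS A K r, R A ρ r (e A K F) b = R A ρ' r (e A K F) b) ∧
    (∀ (ρ : ι → K) (c : K) (r : ℕ) (a b : OS A K r),
      R A (fun i => c * ρ i) r a b = (c⁻¹) ^ r * R A ρ r a b) ∧
    (∀ (ρ : ι → K) (O : Subring K), (∀ X : Finset ι, X.Nonempty → (∑ i ∈ X, ρ i)⁻¹ ∈ O) →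
      ∀ (r : ℕ), ∀ a ∈ Lat A O r, ∀ b ∈ Lat A O r, R A ρ r a b ∈ O) ∧
    (∀ (ρ : ι → K) (F : Fin 0 → ι), R A ρ 0 (e A K F) (e A K F) = 1) ∧
    (∀ (ρ : ι → K) (r : ℕ) (F : Fin (r + 1) → ι), A.Ind F →
      R A ρ (r + 1) (e A K F) (e A K F) = (∑ i ∈ A.cl F, ρ i)⁻¹ *
        ∑ k : Fin (r + 1), R A ρ r (e A K (F ∘ k.succAbove)) (e A K (F ∘ k.succAbove)))

/-! ## Part T: the shift operators -/

/-- MODULE GEN: points exist -/
def GenStmt : Prop :=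
  ∀ (ι : Type) [Fintype ι] [DecidableEq ι] (M : ℕ) (A : Arr ι (M + 2)), Nonempty (Pts A)

/-- MODULE TADJ: the adjoint of a shift operator is a shift operator -/
def TadjStmt : Prop :=
  ∀ (ι : Type) [Fintype ι] [DecidableEq ι] (M : ℕ) (A : Arr ι (M + 2)) (P : Pts A) (K : Type)
    [Field K] [Algebra ℂ K] (ρ : ι → K) (j : ι), NR ρ → NR (fun i => ρ i + ev j i) →
    ∀ a b : OS A K (M + 2), R A ρ (M + 2) (T P ρ j a) b
      = R A (fun i => ρ i + ev j i) (M + 2) a (T P (fun i => ρ i + ev j i) j b)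

/-- MODULE COMM: commutation of the shift operators -/
def CommStmt : Prop :=
  ∀ (ι : Type) [Fintype ι] [DecidableEq ι] (M : ℕ) (A : Arr ι (M + 2)) (P : Pts A) (K : Type)
    [Field K] [Algebra ℂ K] (ρ : ι → K) (j k : ι) (x : OS A K (M + 2)),
    T P ρ j (T P (fun i => ρ i + ev j i) k x) = T P ρ k (T P (fun i => ρ i + ev k i) j x)

/-- MODULE LEMD: generation by the components which do not contain `j` -/
def LemdStmt : Prop :=
  ∀ (ι : Type) [Fintype ι] [DecidableEq ι] (n : ℕ) (A : Arr ι n) (K : Type) [Field K]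
    (O : Subring K) (ρ : ι → K) (j : ι), UnitAt O ρ j → ∀ (r : ℕ) (F : Fin (r + 1) → ι),
    A.Ind F → j ∈ A.cl F → ∃ y ∈ Submodule.span O {x : OS A K r | ∃ G : Fin r → ι,
      (∀ k, G k ∈ A.cl F) ∧ j ∉ A.cl G ∧ x = e A K G}, wX r ρ (A.cl F) y = e A K F

/-- MODULE TSUR: the shift operators are surjective on the lattices -/
def TsurStmt : Prop :=
  ∀ (ι : Type) [Fintype ι] [DecidableEq ι] (M : ℕ) (A : Arr ι (M + 2)) (P : Pts A) (K : Type)
    [Field K] [Algebra ℂ K] (O : Subring K), (∀ c : ℂ, algebraMap ℂ K c ∈ O) →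
    ∀ (ρ : ι → K) (j : ι),
    ((∀ i, ρ i ∈ O) → ∀ x ∈ Lat A O (M + 2), T P ρ j x ∈ Lat A O (M + 2)) ∧
    (UnitAt O ρ j → ∀ x ∈ Lat A O (M + 2), ∃ y ∈ Lat A O (M + 2), T P ρ j y = x)

/-- MODULE TBIJ: bijectivity over the field, and the elements with integral image are integral -/
def TbijStmt : Prop :=
  ∀ (ι : Type) [Fintype ι] [DecidableEq ι] (M : ℕ) (A : Arr ι (M + 2)) (P : Pts A) (K : Type)
    [Field K] [Algebra ℂ K] (ρ : ι → K) (j : ι),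
    (NR ρ → Function.Bijective (T P ρ j)) ∧
    (∀ (O : Subring K), (∀ c : ℂ, algebraMap ℂ K c ∈ O) → UnitAt O ρ j →
      ∀ x : OS A K (M + 2), T P ρ j x ∈ Lat A O (M + 2) → x ∈ Lat A O (M + 2))

/-- MODULE TFR: the shift operators on the generators which contain the index -/
def TfrStmt : Prop :=
  ∀ (ι : Type) [Fintype ι] [DecidableEq ι] (M : ℕ) (A : Arr ι (M + 2)) (P : Pts A) (K : Type)
    [Field K] [Algebra ℂ K] (ρ : ι → K) (i : ι) (G : Fin (M + 1) → ι), A.Ind G →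
    T P ρ i (e A K (Fin.cons i G : Fin (M + 2) → ι))
      = algebraMap ℂ K (dotProduct (A.L i) (P.v (A.cl G))) • wX (M + 1) ρ univ (e A K G)

/-- MODULE FAM: families with a given value, uniqueness, integrality -/
def FamStmt : Prop :=
  ∀ (ι : Type) [Fintype ι] [DecidableEq ι] (M : ℕ) (A : Arr ι (M + 2)) (P : Pts A) (K : Type)
    [Field K] [Algebra ℂ K] (σ : ι → K),
    ((∀ κ : ι → ℕ, NR fun i => σ i + (κ i : K)) → ∀ (κ₀ : ι → ℕ) (y : OS A K (M + 2)),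
      ∃ t : (ι → ℕ) → OS A K (M + 2), IsFam P σ t ∧ t κ₀ = y) ∧
    (∀ t t' : (ι → ℕ) → OS A K (M + 2), IsFam P σ t → IsFam P σ t' → ∀ κ₀, t κ₀ = t' κ₀ →
      ∀ κ, t (κ₀ + κ) = t' (κ₀ + κ)) ∧
    (∀ O : Subring K, (∀ c : ℂ, algebraMap ℂ K c ∈ O) → (∀ i, σ i ∈ O) →
      ∀ t : (ι → ℕ) → OS A K (M + 2), IsFam P σ t → ∀ κ₀, t κ₀ ∈ Lat A O (M + 2) →
        ∀ κ, t (κ₀ + κ) ∈ Lat A O (M + 2))

/-! ## Part F: functionals -/

/-- the values of the functional -/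
noncomputable def phi {ι : Type} [Fintype ι] [DecidableEq ι] {M : ℕ} (A : Arr ι (M + 2)) {K : Type}
    [Field K] (σ : ι → K) (B : Fin (M + 2) → ι) (t : (ι → ℕ) → OS A K (M + 2)) (κ : ι → ℕ) : K :=
  R A (fun i => σ i + (κ i : K) + (cnt B i : K)) (M + 2) (e A K B) (t (κ + cnt B))

/-- MODULE XI: linear relations and derivatives -/
def XiStmt : Prop :=
  ∀ (ι : Type) [Fintype ι] [DecidableEq ι] (M : ℕ) (A : Arr ι (M + 2)) (P : Pts A) (K : Type)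
    [Field K] [Algebra ℂ K] (σ : ι → K) (B : Fin (M + 2) → ι)
    (hB : ∀ p, A.L (B p) = Pi.single p 1) (hσ : ∀ κ : ι → ℕ, NR fun i => σ i + (κ i : K))
    (t : (ι → ℕ) → OS A K (M + 2)), IsFam P σ t →
    (∀ (κ : ι → ℕ) (j : ι), phi A σ B t (κ + Pi.single j 1)
      = ∑ p, algebraMap ℂ K (A.L j p) * phi A σ B t (κ + Pi.single (B p) 1)) ∧
    (∀ (κ : ι → ℕ), (∀ i, 1 ≤ κ i) → ∀ p, algebraMap ℂ K (P.l0 p) * phi A σ B t κ
      = ∑ i, (σ i + (κ i : K)) * algebraMap ℂ K (A.L i p) * phi A σ B t (κ - Pi.single i 1))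

/-- the linear form with the coefficient vector `v` -/
noncomputable def lin {n : ℕ} (v : Fin n → ℂ) : MvPolynomial (Fin n) ℂ :=
  ∑ p, MvPolynomial.C (v p) * MvPolynomial.X p

/-- MODULE FUN: functionals on the polynomial ring -/
def FunStmt : Prop :=
  ∀ (ι : Type) [Fintype ι] [DecidableEq ι] (n : ℕ) (L : ι → Fin n → ℂ) (B : Fin n → ι)
    (hB : ∀ p, L (B p) = Pi.single p 1) (K : Type) [Field K] [Algebra ℂ K] (φ : (ι → ℕ) → K)
    (hφ : ∀ (κ : ι → ℕ) (j : ι), φ (κ + Pi.single j 1)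
      = ∑ p, algebraMap ℂ K (L j p) * φ (κ + Pi.single (B p) 1)),
    ∃ Ξ : MvPolynomial (Fin n) ℂ →ₗ[ℂ] K, ∀ κ : ι → ℕ, Ξ (∏ i, lin (L i) ^ κ i) = φ κ

/-- the product of the powers of the forms -/
noncomputable def fW {ι : Type} [Fintype ι] {n : ℕ} (L : ι → Fin n → ℂ) (m : ι → ℕ) :
    MvPolynomial (Fin n) ℂ := ∏ i, lin (L i) ^ m i

/-- MODULE CHN: the functionals `ξ k` behave like `f ^ (s - k)` -/
def ChnStmt : Prop :=
  ∀ (ι : Type) [Fintype ι] [DecidableEq ι] (M : ℕ) (A : Arr ι (M + 2)) (P : Pts A) (K : Type)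
    [Field K] [Algebra ℂ K] (B : Fin (M + 2) → ι) (hB : ∀ p, A.L (B p) = Pi.single p 1)
    (m : ι → ℕ) (hm : ∀ i, 0 < m i) (s : K)
    (hs : ∀ (k : ℕ) (κ : ι → ℕ), NR fun i => (s - (k : K)) * (m i : K) + (κ i : K))
    (y : OS A K (M + 2)),
    ∃ (t : (ι → ℕ) → OS A K (M + 2)) (ξ : ℕ → MvPolynomial (Fin (M + 2)) ℂ →ₗ[ℂ] K),
      IsFam P (fun i => s * (m i : K)) t ∧ t (cnt B) = y ∧
      (∀ κ : ι → ℕ, ξ 0 (∏ i, lin (A.L i) ^ κ i) = phi A (fun i => s * (m i : K)) B t κ) ∧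
      (∀ k q, ξ (k + 1) (fW A.L m * q) = ξ k q) ∧
      (∀ (k : ℕ) (p : Fin (M + 2)) (q : MvPolynomial (Fin (M + 2)) ℂ),
        algebraMap ℂ K (P.l0 p) * ξ k q - ξ k (MvPolynomial.pderiv p q)
          = (s - (k : K)) * ξ (k + 1) (MvPolynomial.pderiv p (fW A.L m) * q))

/-- MODULE LOC: from a homogeneous polynomial `f0` to `f0 * g`, `g(0) ≠ 0`, in more variables -/
def LocStmt : Prop :=
  ∀ (n : ℕ) (κ : Type) [Finite κ] (E H : Type) [CommRing E] [Algebra ℂ E] [AddCommGroup H]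
    [Module ℂ H] [Module E H] [IsScalarTower ℂ E H] (f0 : MvPolynomial (Fin n) ℂ) (d : ℕ)
    (hf0 : f0.IsHomogeneous d) (g : MvPolynomial (Fin n ⊕ κ) ℂ)
    (hg : MvPolynomial.constantCoeff g ≠ 0) (s : E)
    (act : MvPolynomial (Fin n) ℂ →ₐ[ℂ] Module.End E H) (D : Fin n → Module.End E H)
    (leibX : ∀ i j b, D i (act (MvPolynomial.X j) b)
      = act (MvPolynomial.pderiv i (MvPolynomial.X j)) b + act (MvPolynomial.X j) (D i b))
    (psi : ℕ → H) (mul_psi : ∀ k, act f0 (psi (k + 1)) = psi k)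
    (d_psi : ∀ i, ∀ k : ℕ, D i (psi k) = (s - (k : E)) • act (MvPolynomial.pderiv i f0) (psi (k + 1)))
    (N : Submodule E H) (hact : ∀ i, ∀ b ∈ N, act (MvPolynomial.X i) b ∈ N)
    (hd : ∀ i, ∀ b ∈ N, D i b ∈ N) (h0 : act f0 (psi 0) ∈ N),
    (Polynomial.aeval s (Helper6_Mono.bfun (MvPolynomial.rename Sum.inl f0 * g))) • psi 0 ∈ N

/-- MODULE F1: if `-n/d` is not a root, then the property `P(B, s m + e_B)` holds -/
def F1Stmt : Prop :=
  ∀ (ι : Type) [Fintype ι] [DecidableEq ι] (M : ℕ) (A : Arr ι (M + 2)) (P : Pts A)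
    (B : Fin (M + 2) → ι) (hB : ∀ p, A.L (B p) = Pi.single p 1) (m : ι → ℕ) (hm : ∀ i, 0 < m i)
    (hd : M + 2 < ∑ i, m i) (κ : Type) [Finite κ] (g : MvPolynomial (Fin (M + 2) ⊕ κ) ℂ)
    (hg : MvPolynomial.constantCoeff g ≠ 0) (β : ℂ) (hβ : β * (∑ i, m i : ℕ) = -((M + 2 : ℕ) : ℂ)),
    (Helper6_Mono.bfun (MvPolynomial.rename Sum.inl (fW A.L m) * g)).eval β ≠ 0 →
    PP O0 A B fun i => (algebraMap ℂ K0 β + t0) * (m i : K0) + (cnt B i : K0)

/-! ## Part C: the chain -/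

/-- MODULE SW: the switch from `B` to `B'` -/
def SwStmt : Prop :=
  ∀ (ι : Type) [Fintype ι] [DecidableEq ι] (M : ℕ) (A : Arr ι (M + 2)) (P : Pts A) (K : Type)
    [Field K] [Algebra ℂ K] (O : Subring K), (∀ c : ℂ, algebraMap ℂ K c ∈ O) →
    ∀ (B : Fin (M + 2) → ι) (p : Fin (M + 2)) (j : ι) (ρ : ι → K), A.Ind B →
    A.Ind (Function.update B p j) → (∀ i, ρ i ∈ O) → NR ρ → NR (fun i => ρ i - ev (B p) i) →
    NR (fun i => ρ i - ev (B p) i + ev j i) → UnitAt O (fun i => ρ i + ev j i) j →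
    PP O A B ρ → PP O A (Function.update B p j) fun i => ρ i - ev (B p) i + ev j i

/-- the weighted count of the orderings of the finite set `S`, a polynomial in the weights -/
def gpol {k : Type} [CommRing k] {n : ℕ} (w : Finset (Fin n) → k) : ℕ → Finset (Fin n) → k
  | 0, _ => 1
  | c + 1, S => ∑ p ∈ S, (∏ T ∈ S.powerset.filter (fun T => T ≠ S ∧ p ∈ T), w T) *
      gpol w c (S.erase p)

/-- the indices of the forms which only involve the coordinates in `S` -/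
noncomputable def clS {ι : Type} [Fintype ι] {n : ℕ} (L : ι → Fin n → ℂ) (S : Finset (Fin n)) :
    Finset ι := by
  classical
  exact univ.filter fun i => ∀ p, L i p ≠ 0 → p ∈ S

/-- the family is connected, seen from the coordinates -/
def Conn {ι : Type} {n : ℕ} (L : ι → Fin n → ℂ) : Prop :=
  ∀ S : Finset (Fin n), S.Nonempty → S ≠ univ → ∃ i, (∃ p ∈ S, L i p ≠ 0) ∧ ∃ p ∉ S, L i p ≠ 0

/-- MODULE DIA: the value of the form on the standard generator -/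
def DiaStmt : Prop :=
  ∀ (ι : Type) [Fintype ι] [DecidableEq ι] (M : ℕ) (A : Arr ι (M + 2)) (K : Type)
    [Field K] (B : Fin (M + 2) → ι) (hB : ∀ p, A.L (B p) = Pi.single p 1) (ρ : ι → K), NR ρ →
    R A ρ (M + 2) (e A K B) (e A K B)
      * (∏ S ∈ (univ : Finset (Finset (Fin (M + 2)))).filter (fun S => S.Nonempty),
          ∑ i ∈ clS A.L S, ρ i)
      = gpol (fun S => ∑ i ∈ clS A.L S, ρ i) (M + 2) univ

/-- MODULE POS: a point with sum zero at which the polynomial does not vanish -/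
def PosStmt : Prop :=
  ∀ (ι : Type) [Fintype ι] [DecidableEq ι] (n : ℕ) (L : ι → Fin n → ℂ) (B : Fin n → ι),
    (∀ p, L (B p) = Pi.single p 1) → 2 ≤ n → (∀ i, L i ≠ 0) → Conn L →
    ∃ ρ : ι → ℂ, ∑ i, ρ i = 0 ∧ gpol (fun S => ∑ i ∈ clS L S, ρ i) n univ ≠ 0

/-- MODULE SPN: the exchange vectors span the vectors with sum zero -/
def SpnStmt : Prop :=
  ∀ (ι : Type) [Fintype ι] [DecidableEq ι] (n : ℕ) (L : ι → Fin n → ℂ) (B : Fin n → ι),
    (∀ p, L (B p) = Pi.single p 1) → 1 ≤ n → (∀ i, L i ≠ 0) → Conn L → ∀ v : ι → ℂ,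
    ∑ i, v i = 0 → v ∈ Submodule.span ℂ {w : ι → ℂ | ∃ (j : ι) (p : Fin n), L j p ≠ 0 ∧
      w = fun i => ev j i - ev (B p) i}

/-- MODULE END: contradiction -/
def EndStmt : Prop :=
  ∀ (ι : Type) [Fintype ι] [DecidableEq ι] (M : ℕ) (A : Arr ι (M + 2)) (P : Pts A)
    (B : Fin (M + 2) → ι) (hB : ∀ p, A.L (B p) = Pi.single p 1) (hc : Conn A.L)
    (m : ι → ℕ) (hm : ∀ i, 0 < m i) (ρ : ι → ℂ) (hρ : ∑ i, ρ i = 0) (c : ℂ), c ≠ 0 →
    ¬ PP O0 A B fun i => algebraMap ℂ K0 (ρ i) + algebraMap ℂ K0 c * t0 * (m i : K0)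

/-- MODULE VAL: the valuation ring -/
def ValStmt : Prop :=
  (∀ c : ℂ, algebraMap ℂ K0 c ∈ O0) ∧ t0 ∈ O0 ∧
  ∃ ev : O0 →+* ℂ, (∀ (c : ℂ) (h : algebraMap ℂ K0 c ∈ O0), ev ⟨algebraMap ℂ K0 c, h⟩ = c) ∧
    (∀ h : t0 ∈ O0, ev ⟨t0, h⟩ = 0) ∧ ∀ x : O0, ev x ≠ 0 → (x : K0) ≠ 0 ∧ (x : K0)⁻¹ ∈ O0

/-! ## Part M: the theorem -/

/-- MODULE NDC: the theorem in coordinates -/
def NdcStmt : Prop :=
  ∀ (ι : Type) [Fintype ι] [DecidableEq ι] (M : ℕ) (L : ι → Fin (M + 2) → ℂ) (hL : ∀ i, L i ≠ 0)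
    (B : Fin (M + 2) → ι) (hB : ∀ p, L (B p) = Pi.single p 1) (hc : Conn L)
    (m : ι → ℕ) (hm : ∀ i, 0 < m i) (κ : Type) [Finite κ]
    (g : MvPolynomial (Fin (M + 2) ⊕ κ) ℂ) (hg : MvPolynomial.constantCoeff g ≠ 0),
    (Helper6_Mono.bfun (MvPolynomial.rename Sum.inl (fW L m) * g)).eval
      (-((M + 2 : ℕ) : ℂ) / ((∑ i, m i : ℕ) : ℂ)) = 0

/-- the linear part of a polynomial -/
noncomputable def lp {σ : Type} (a : MvPolynomial σ ℂ) : σ → ℂ :=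
  fun l => MvPolynomial.coeff (Finsupp.single l 1) a

/-- MODULE CRD: coordinates -/
def CrdStmt : Prop :=
  ∀ (σ ι : Type) [Finite σ] [Fintype ι] (a : ι → MvPolynomial σ ℂ)
    (ha : ∀ i, (a i).totalDegree = 1) (z : σ → ℂ)
    (hz : ∀ i, MvPolynomial.eval z (a i) = 0) (g : MvPolynomial σ ℂ)
    (hg : MvPolynomial.eval z g ≠ 0)
    (hc : ∀ S : Set ι, S.Nonempty → Sᶜ.Nonempty →
      ¬ Disjoint (Submodule.span ℂ ((fun i => lp (a i)) '' S))
        (Submodule.span ℂ ((fun i => lp (a i)) '' Sᶜ))) (M : ℕ)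
    (hM : Module.finrank ℂ (Submodule.span ℂ (Set.range fun i => lp (a i))) = M + 2),
    ∃ (L : ι → Fin (M + 2) → ℂ) (B : Fin (M + 2) → ι) (κ : Type) (_ : Finite κ)
      (Φ : MvPolynomial σ ℂ ≃ₐ[ℂ] MvPolynomial (Fin (M + 2) ⊕ κ) ℂ), (∀ i, L i ≠ 0) ∧
      (∀ p, L (B p) = Pi.single p 1) ∧ Conn L ∧
      (∀ i, Φ (a i) = MvPolynomial.rename Sum.inl (lin (L i))) ∧
      MvPolynomial.constantCoeff (Φ g) ≠ 0

/-- MODULE RK1: rank one -/
def Rk1Stmt : Prop :=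
  ∀ (σ ι : Type) [Finite σ] [Fintype ι] [Nonempty ι] (a : ι → MvPolynomial σ ℂ)
    (ha : ∀ i, (a i).totalDegree = 1) (m : ι → ℕ) (hm : ∀ i, 0 < m i) (z : σ → ℂ)
    (hz : ∀ i, MvPolynomial.eval z (a i) = 0) (g : MvPolynomial σ ℂ)
    (hg : MvPolynomial.eval z g ≠ 0)
    (h1 : Module.finrank ℂ (Submodule.span ℂ (Set.range fun i => lp (a i))) = 1),
    (Helper6_Mono.bfun ((∏ i, a i ^ m i) * g)).eval (-1 / ((∑ i, m i : ℕ) : ℂ)) = 0

/-- MODULE MAIN: the theorem: the affine forms `a i` vanish at `z`, their linear parts are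
connected, `g z ≠ 0`, and `f` is the product of `g` and of the `a i ^ m i`; then `-r/d` is a root of
the Bernstein-Sato polynomial, `r` the dimension of the span of the linear parts, `d = ∑ m i` -/
def NdStmt : Prop :=
  ∀ (σ ι : Type) [Finite σ] [Fintype ι] [Nonempty ι] (a : ι → MvPolynomial σ ℂ)
    (ha : ∀ i, (a i).totalDegree = 1) (m : ι → ℕ) (hm : ∀ i, 0 < m i) (z : σ → ℂ)
    (hz : ∀ i, MvPolynomial.eval z (a i) = 0) (g : MvPolynomial σ ℂ)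
    (hg : MvPolynomial.eval z g ≠ 0)
    (hc : ∀ S : Set ι, S.Nonempty → Sᶜ.Nonempty →
      ¬ Disjoint (Submodule.span ℂ ((fun i => lp (a i)) '' S))
        (Submodule.span ℂ ((fun i => lp (a i)) '' Sᶜ))),
    (Helper6_Mono.bfun ((∏ i, a i ^ m i) * g)).eval
      (-((Module.finrank ℂ (Submodule.span ℂ (Set.range fun i => lp (a i))) : ℕ) : ℂ)
        / ((∑ i, m i : ℕ) : ℂ)) = 0

end Pool.Agent.ND
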