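import Pool.Agent.Helper32_ND.Stmts

/-!
# Module END: the contradiction
-/

set_option autoImplicit false
set_option linter.unusedVariables false
set_option linter.unusedSectionVars false

namespace Pool.Agent.ND.H32

open Finset

/-! ## gpol -/

theorem gpol_map {k k' : Type} [CommRing k] [CommRing k'] (φ : k →+* k') {n : ℕ}
    (w : Finset (Fin n) → k) (c : ℕ) (S : Finset (Fin n)) :
    φ (gpol w c S) = gpol (fun T => φ (w T)) c S := by
  induction c generalizing S with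
  | zero => simp [gpol]
  | succ c ih =>
    simp only [gpol, map_sum, map_mul, map_prod, ih]

/-- polynomial on every line -/
def LP {ι : Type} (F : (ι → ℂ) → ℂ) : Prop :=
  ∀ ρ v : ι → ℂ, ∃ q : Polynomial ℂ, ∀ x : ℂ, F (ρ + x • v) = q.eval x

theorem LP_trans {ι : Type} {F : (ι → ℂ) → ℂ} (h : LP F) (w : ι → ℂ) : LP fun ρ => F (ρ + w) := by
  intro ρ v
  obtain ⟨q, hq⟩ := h (ρ + w) v
  refine ⟨q, fun x => ?_⟩
  rw [← hq x]
  show F (ρ + x • v + w) = F (ρ + w + x • v)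
  rw [add_right_comm]

theorem LP_gpol {ι : Type} [Fintype ι] {n : ℕ} (cc : Finset (Fin n) → Finset ι) (c : ℕ)
    (S : Finset (Fin n)) : LP fun ρ : ι → ℂ => gpol (fun T => ∑ i ∈ cc T, ρ i) c S := by
  intro ρ v
  refine ⟨gpol (fun T => Polynomial.C (∑ i ∈ cc T, ρ i) + Polynomial.X *
    Polynomial.C (∑ i ∈ cc T, v i)) c S, fun x => ?_⟩
  have h := gpol_map (Polynomial.evalRingHom x) (fun T => Polynomial.C (∑ i ∈ cc T, ρ i) +
    Polynomial.X * Polynomial.C (∑ i ∈ cc T, v i)) c S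
  rw [Polynomial.coe_evalRingHom] at h
  rw [h]
  show gpol (fun T => ∑ i ∈ cc T, (ρ + x • v) i) c S = _
  congr 1
  funext T
  simp only [Polynomial.eval_add, Polynomial.eval_mul, Polynomial.eval_C, Polynomial.eval_X,
    Pi.add_apply, Pi.smul_apply, smul_eq_mul, Finset.sum_add_distrib, Finset.mul_sum]

/-- a polynomial which vanishes outside a finite set is zero -/
theorem poly_zero {q : Polynomial ℂ} {s : Set ℂ} (hs : s.Finite) (h : ∀ x, x ∉ s → q.eval x = 0) :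
    q = 0 := by
  refine Polynomial.eq_zero_of_infinite_isRoot q ?_
  have h2 : sᶜ ⊆ {x | q.IsRoot x} := fun x hx => h x hx
  exact (Set.Finite.infinite_compl hs).mono h2

/-! ## The valuation ring -/

theorem t0_ne : t0 ≠ 0 := by
  unfold t0
  rw [Ne, map_eq_zero_iff _ (IsFractionRing.injective E0 K0)]
  exact PowerSeries.X_ne_zero

section

variable (hV : ValStmt)
include hV

theorem nz (a b : ℂ) (hb : b ≠ 0) : algebraMap ℂ K0 a + algebraMap ℂ K0 b * t0 ≠ 0 := by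
  intro h
  obtain ⟨h1, h2, ev, h3, h4, h5⟩ := hV
  have h6 : t0 = algebraMap ℂ K0 (-a / b) := by
    have hb2 : algebraMap ℂ K0 b ≠ 0 := by
      rw [Ne, map_eq_zero_iff _ (algebraMap ℂ K0).injective]
      exact hb
    rw [map_div₀, map_neg, eq_div_iff hb2]
    linear_combination h
  have h7 : (⟨t0, h2⟩ : O0) = ⟨algebraMap ℂ K0 (-a / b), h1 _⟩ := Subtype.ext h6
  have h8 := h4 h2
  rw [h7, h3] at h8
  rw [h8, map_zero] at h6
  exact t0_ne h6

theorem memO (a b : ℂ) : algebraMap ℂ K0 a + algebraMap ℂ K0 b * t0 ∈ O0 :=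
  O0.add_mem (hV.1 a) (O0.mul_mem (hV.1 b) hV.2.1)

theorem un (a b : ℂ) (ha : a ≠ 0) : algebraMap ℂ K0 a + algebraMap ℂ K0 b * t0 ≠ 0 ∧
    (algebraMap ℂ K0 a + algebraMap ℂ K0 b * t0)⁻¹ ∈ O0 := by
  have hm := memO hV a b
  obtain ⟨h1, h2, ev, h3, h4, h5⟩ := hV
  have h6 : (⟨algebraMap ℂ K0 a + algebraMap ℂ K0 b * t0, hm⟩ : O0)
      = ⟨algebraMap ℂ K0 a, h1 a⟩ + ⟨algebraMap ℂ K0 b, h1 b⟩ * ⟨t0, h2⟩ := rfl
  have h7 := h5 ⟨_, hm⟩ (by rw [h6, map_add, map_mul, h3, h3, h4, mul_zero, add_zero]; exact ha)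
  exact h7

end

/-! ## The sets of weights -/

section

variable {ι : Type} [Fintype ι] [DecidableEq ι] {M : ℕ}

/-- the weights in the direction `m` -/
noncomputable def wt (m : ι → ℕ) (ρ : ι → ℂ) (c : ℂ) : ι → K0 :=
  fun i => algebraMap ℂ K0 (ρ i) + algebraMap ℂ K0 c * t0 * (m i : K0)

theorem wt_sum (m : ι → ℕ) (ρ : ι → ℂ) (c : ℂ) (X : Finset ι) :
    ∑ i ∈ X, wt m ρ c i = algebraMap ℂ K0 (∑ i ∈ X, ρ i)
      + algebraMap ℂ K0 (c * ((∑ i ∈ X, m i : ℕ) : ℂ)) * t0 := by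
  unfold wt
  rw [Finset.sum_add_distrib, map_sum, ← Finset.mul_sum, map_mul, Nat.cast_sum, map_sum]
  congr 1
  rw [mul_assoc, mul_comm t0, ← mul_assoc]
  congr 2
  refine Finset.sum_congr rfl fun i _ => ?_
  rw [map_natCast]

theorem wt_memO (hV : ValStmt) (m : ι → ℕ) (ρ : ι → ℂ) (c : ℂ) (i : ι) : wt m ρ c i ∈ O0 := by
  have h := wt_sum m ρ c {i}
  rw [Finset.sum_singleton] at h
  rw [h]
  exact memO hV _ _

theorem wt_NR (hV : ValStmt) {m : ι → ℕ} (hm : ∀ i, 0 < m i) (ρ : ι → ℂ) {c : ℂ} (hc : c ≠ 0) :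
    NR (wt m ρ c) := by
  intro X hX
  rw [wt_sum]
  refine nz hV _ _ (mul_ne_zero hc ?_)
  rw [Nat.cast_ne_zero]
  exact (Finset.sum_pos (fun i _ => hm i) hX).ne'

theorem wt_scale (m : ι → ℕ) (ρ : ι → ℂ) (c x : ℂ) :
    (fun i => algebraMap ℂ K0 x * wt m ρ c i) = wt m (fun i => x * ρ i) (x * c) := by
  funext i
  unfold wt
  rw [map_mul, map_mul]
  ring

theorem wt_sub (m : ι → ℕ) (ρ : ι → ℂ) (c : ℂ) (i : ι) :
    (fun l => wt m ρ c l - ev i l) = wt m (fun l => ρ l - ev i l) c := by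
  funext l
  unfold wt ev
  by_cases h : l = i
  · subst h; simp; ring
  · simp [h]

theorem wt_add (m : ι → ℕ) (ρ : ι → ℂ) (c : ℂ) (i : ι) :
    (fun l => wt m ρ c l + ev i l) = wt m (fun l => ρ l + ev i l) c := by
  funext l
  unfold wt ev
  by_cases h : l = i
  · subst h; simp; ring
  · simp [h]

/-- the set `S_B` -/
def SB (A : Arr ι (M + 2)) (m : ι → ℕ) (B : Fin (M + 2) → ι) : Set (ι → ℂ) :=
  {ρ | ∑ i, ρ i = 0 ∧ ∃ c : ℂ, c ≠ 0 ∧ PP O0 A B (wt m ρ c)}

variable {A : Arr ι (M + 2)} {m : ι → ℕ} {B : Fin (M + 2) → ι}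

theorem SB_scale (hV : ValStmt) (hR : RlocStmt) {ρ : ι → ℂ} (h : ρ ∈ SB A m B) {x : ℂ}
    (hx : x ≠ 0) : (fun i => x * ρ i) ∈ SB A m B := by
  obtain ⟨h1, c, hc, h2⟩ := h
  refine ⟨by rw [← Finset.mul_sum, h1, mul_zero], x * c, mul_ne_zero hx hc, ?_⟩
  rw [← wt_scale]
  intro y hy
  rw [(hR ι (M + 2) A K0).2.1]
  refine O0.mul_mem (O0.pow_mem ?_ _) (h2 y hy)
  rw [← map_inv₀]
  exact hV.1 _

theorem sum_ev (X : Finset ι) (j : ι) : ∑ i ∈ X, (ev j i : ℂ) = if j ∈ X then 1 else 0 := by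
  unfold ev
  simp only [Pi.single_apply]
  rw [Finset.sum_ite_eq' X j]

theorem SB_step (hSW : SwStmt) (hR : RlocStmt) (hV : ValStmt) (P : Pts A) (hm : ∀ i, 0 < m i)
    {ρ : ι → ℂ} (h : ρ ∈ SB A m B) (hI : A.Ind B) (p : Fin (M + 2)) (j : ι)
    (hI2 : A.Ind (Function.update B p j)) {x : ℂ} (hx : x ≠ 0)
    (hx2 : ∀ X : Finset ι, x ≠ -∑ i ∈ X, ρ i) :
    ρ + x • (fun i => ev j i - ev (B p) i) ∈ SB A m (Function.update B p j) := by
  obtain ⟨h1, c, hc, h2⟩ := SB_scale hV hR h (inv_ne_zero hx)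
  have h3 : (fun i => x⁻¹ * ρ i - ev (B p) i + ev j i) ∈ SB A m (Function.update B p j) := by
    refine ⟨?_, c, hc, ?_⟩
    · rw [Finset.sum_add_distrib, Finset.sum_sub_distrib, h1, sum_ev, sum_ev]
      simp
    · have h4 := hSW ι M A P K0 O0 hV.1 B p j (wt m (fun i => x⁻¹ * ρ i) c) hI hI2
        (wt_memO hV m _ c) (wt_NR hV hm _ hc) (by rw [wt_sub]; exact wt_NR hV hm _ hc)
        (by
          have := wt_sub m (fun i => x⁻¹ * ρ i) c (B p)
          have h5 : (fun i => wt m (fun i => x⁻¹ * ρ i) c i - ev (B p) i + ev j i)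
              = wt m (fun l => x⁻¹ * ρ l - ev (B p) l + ev j l) c := by
            rw [← wt_add, ← wt_sub]
          rw [h5]
          exact wt_NR hV hm _ hc)
        (by
          rw [wt_add]
          refine ⟨wt_memO hV m _ c, fun X hX => ?_⟩
          rw [wt_sum]
          refine un hV _ _ ?_
          rw [Finset.sum_add_distrib, sum_ev, if_pos hX, ← Finset.mul_sum]
          intro h6
          apply hx2 X
          field_simp at h6
          linear_combination h6)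
        h2
      have h5 : (fun i => wt m (fun i => x⁻¹ * ρ i) c i - ev (B p) i + ev j i)
          = wt m (fun l => x⁻¹ * ρ l - ev (B p) l + ev j l) c := by
        rw [← wt_add, ← wt_sub]
      rw [h5] at h4
      exact h4
  have h4 := SB_scale hV hR h3 hx
  have h5 : (fun i => x * (x⁻¹ * ρ i - ev (B p) i + ev j i))
      = ρ + x • (fun i => ev j i - ev (B p) i) := by
    funext i
    simp only [Pi.add_apply, Pi.smul_apply, smul_eq_mul]
    field_simp
    ring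
  rw [h5] at h4
  exact h4

/-- a function vanishing on `S_{B'}` vanishes on the lines through the points of `S_B` -/
theorem van1 (hSW : SwStmt) (hR : RlocStmt) (hV : ValStmt) (P : Pts A) (hm : ∀ i, 0 < m i)
    {F : (ι → ℂ) → ℂ} (hF : LP F) {ρ : ι → ℂ} (h : ρ ∈ SB A m B) (hI : A.Ind B)
    (p : Fin (M + 2)) (j : ι) (hI2 : A.Ind (Function.update B p j))
    (hF2 : ∀ ρ' ∈ SB A m (Function.update B p j), F ρ' = 0) (x : ℂ) :
    F (ρ + x • (fun i => ev j i - ev (B p) i)) = 0 := by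
  obtain ⟨q, hq⟩ := hF ρ (fun i => ev j i - ev (B p) i)
  have h1 : q = 0 := by
    refine poly_zero (s := {0} ∪ Set.range fun X : Finset ι => -∑ i ∈ X, ρ i)
      ((Set.finite_singleton _).union (Set.finite_range _)) fun y hy => ?_
    rw [← hq y]
    apply hF2
    refine SB_step hSW hR hV P hm h hI p j hI2 (fun h0 => hy (Or.inl h0)) fun X hX => ?_
    exact hy (Or.inr ⟨X, hX.symm⟩)
  rw [hq x, h1, Polynomial.eval_zero]

theorem Ind_std (hB : ∀ p, A.L (B p) = Pi.single p 1) : A.Ind B := by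
  unfold Arr.Ind
  have h : (fun k => A.L (B k)) = fun k => (Pi.basisFun ℂ (Fin (M + 2))) k := by
    funext k
    rw [hB k, Pi.basisFun_apply]
  rw [h]
  exact (Pi.basisFun ℂ (Fin (M + 2))).linearIndependent

theorem Ind_upd (hB : ∀ p, A.L (B p) = Pi.single p 1) (p : Fin (M + 2)) (j : ι)
    (hj : A.L j p ≠ 0) : A.Ind (Function.update B p j) := by
  have h1 : A.Ind (Fin.cons (Function.update B p j p) ((Function.update B p j) ∘ p.succAbove) :
      Fin (M + 2) → ι) := by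
    rw [Ind_cons_iff]
    have h2 : (Function.update B p j) ∘ p.succAbove = B ∘ p.succAbove := by
      funext k
      simp
    rw [h2, Function.update_self]
    refine ⟨Ind_face (Ind_std hB) p, fun h3 => hj ?_⟩
    rw [Arr.mem_cl] at h3
    have h4 : Submodule.span ℂ (Set.range fun k => A.L ((B ∘ p.succAbove) k))
        ≤ LinearMap.ker (LinearMap.proj p : (Fin (M + 2) → ℂ) →ₗ[ℂ] ℂ) := by
      rw [Submodule.span_le]
      rintro x ⟨k, rfl⟩
      simp only [SetLike.mem_coe, LinearMap.mem_ker, LinearMap.proj_apply, Function.comp_apply, hB]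
      exact Pi.single_eq_of_ne (Fin.succAbove_ne p k).symm 1
    have h5 := h4 h3
    rwa [LinearMap.mem_ker, LinearMap.proj_apply] at h5
  exact (Ind_cons_cycle _ p).1 h1

/-- translations by exchange vectors -/
theorem van3 (hSW : SwStmt) (hR : RlocStmt) (hV : ValStmt) (P : Pts A) (hm : ∀ i, 0 < m i)
    (hB : ∀ p, A.L (B p) = Pi.single p 1) (p : Fin (M + 2)) (j : ι) (hj : A.L j p ≠ 0)
    {F : (ι → ℂ) → ℂ} (hF : LP F) (hF2 : ∀ ρ ∈ SB A m B, F ρ = 0) {ρ : ι → ℂ}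
    (h : ρ ∈ SB A m B) (x : ℂ) : F (ρ + x • (fun i => ev j i - ev (B p) i)) = 0 := by
  refine van1 hSW hR hV P hm hF h (Ind_std hB) p j (Ind_upd hB p j hj) (fun ρ' h' => ?_) x
  have h1 := van1 hSW hR hV P hm hF h' (Ind_upd hB p j hj) p (B p)
    (by rw [Function.update_idem, Function.update_eq_self]; exact Ind_std hB)
    (by rw [Function.update_idem, Function.update_eq_self]; exact hF2) 0
  rwa [zero_smul, add_zero] at h1

theorem van4 (hSW : SwStmt) (hR : RlocStmt) (hV : ValStmt) (P : Pts A) (hm : ∀ i, 0 < m i)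
    (hB : ∀ p, A.L (B p) = Pi.single p 1) {v : ι → ℂ}
    (hv : v ∈ Submodule.span ℂ {w : ι → ℂ | ∃ (j : ι) (p : Fin (M + 2)), A.L j p ≠ 0 ∧
      w = fun i => ev j i - ev (B p) i}) :
    ∀ (y : ℂ) (F : (ι → ℂ) → ℂ), LP F → (∀ ρ ∈ SB A m B, F ρ = 0) → ∀ ρ ∈ SB A m B,
      F (ρ + y • v) = 0 := by
  induction hv using Submodule.span_induction with
  | mem w hw =>
    obtain ⟨j, p, hj, rfl⟩ := hw
    intro y F hF hF2 ρ hρ
    exact van3 hSW hR hV P hm hB p j hj hF hF2 hρ y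
  | zero =>
    intro y F hF hF2 ρ hρ
    rw [smul_zero, add_zero]
    exact hF2 ρ hρ
  | add a b _ _ ha hb =>
    intro y F hF hF2 ρ hρ
    have h1 := ha y (fun ρ => F (ρ + y • b)) (LP_trans hF _) (fun ρ' h' => hb y F hF hF2 ρ' h') ρ hρ
    rw [smul_add, ← add_assoc]
    exact h1
  | smul c a _ ha =>
    intro y F hF hF2 ρ hρ
    rw [smul_smul]
    exact ha (y * c) F hF hF2 ρ hρ

theorem clS_univ (L : ι → Fin (M + 2) → ℂ) : clS L univ = univ := by
  unfold clS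
  simp

/-- the polynomial vanishes on `S_B` -/
theorem van0 (hR : RlocStmt) (hD : DiaStmt) (hV : ValStmt) (hm : ∀ i, 0 < m i)
    (hB : ∀ p, A.L (B p) = Pi.single p 1) {ρ : ι → ℂ} (h : ρ ∈ SB A m B) :
    gpol (fun S => ∑ i ∈ clS A.L S, ρ i) (M + 2) univ = 0 := by
  obtain ⟨h1, c, hc, h2⟩ := h
  have h3 := hD ι M A K0 B hB (wt m ρ c) (wt_NR hV hm ρ hc)
  have h4 := h2 (e A K0 B) (Submodule.subset_span ⟨B, rfl⟩)
  have hw : ∀ S : Finset (Fin (M + 2)), ∑ i ∈ clS A.L S, wt m ρ c i ∈ O0 := fun S =>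
    O0.sum_mem fun i _ => wt_memO hV m ρ c i
  obtain ⟨hv1, hv2, v, hv3, hv4, hv5⟩ := id hV
  let wO : Finset (Fin (M + 2)) → O0 := fun S => ⟨∑ i ∈ clS A.L S, wt m ρ c i, hw S⟩
  have hvw : ∀ S, v (wO S) = ∑ i ∈ clS A.L S, ρ i := by
    intro S
    have h6 : wO S = ⟨algebraMap ℂ K0 (∑ i ∈ clS A.L S, ρ i), hv1 _⟩
        + ⟨algebraMap ℂ K0 (c * ((∑ i ∈ clS A.L S, m i : ℕ) : ℂ)), hv1 _⟩ * ⟨t0, hv2⟩ :=
      Subtype.ext (wt_sum m ρ c (clS A.L S))
    rw [h6, map_add, map_mul, hv3, hv3, hv4, mul_zero, add_zero]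
  have h5 : (⟨_, h4⟩ : O0) * (∏ S ∈ (univ : Finset (Finset (Fin (M + 2)))).filter
      (fun S => S.Nonempty), wO S) = gpol wO (M + 2) univ := by
    apply Subtype.ext
    have h7 := gpol_map O0.subtype wO (M + 2) univ
    have h8 : ((gpol wO (M + 2) univ : O0) : K0)
        = gpol (fun S => ∑ i ∈ clS A.L S, wt m ρ c i) (M + 2) univ := h7
    rw [h8, ← h3]
    have h9 := map_prod O0.subtype wO ((univ : Finset (Finset (Fin (M + 2)))).filter
      (fun S => S.Nonempty))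
    have h10 : ((∏ S ∈ (univ : Finset (Finset (Fin (M + 2)))).filter
      (fun S => S.Nonempty), wO S : O0) : K0) = ∏ S ∈ (univ : Finset (Finset (Fin (M + 2)))).filter
      (fun S => S.Nonempty), ∑ i ∈ clS A.L S, wt m ρ c i := h9
    rw [Subring.coe_mul, h10]
  have h6 := congrArg v h5
  rw [map_mul, map_prod, gpol_map] at h6
  have h7 : (fun T => v (wO T)) = fun S => ∑ i ∈ clS A.L S, ρ i := funext hvw
  rw [h7] at h6
  rw [← h6]
  refine mul_eq_zero_of_right _ (Finset.prod_eq_zero (i := univ) ?_ ?_)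
  · rw [Finset.mem_filter]
    exact ⟨Finset.mem_univ _, Finset.univ_nonempty⟩
  · show ∑ i ∈ clS A.L univ, ρ i = 0
    rw [clS_univ, h1]

end

theorem end_ (hSW : SwStmt) (hR : RlocStmt) (hD : DiaStmt) (hP : PosStmt) (hS : SpnStmt)
    (hV : ValStmt) : EndStmt := by
  intro ι _ _ M A P B hB hc m hm ρ hρ c hcc hPP
  have h0 : ρ ∈ SB A m B := ⟨hρ, c, hcc, hPP⟩
  obtain ⟨ρs, h1, h2⟩ := hP ι (M + 2) A.L B hB (by omega) A.ne hc
  have h3 := hS ι (M + 2) A.L B hB (by omega) A.ne hc (ρs - ρ) (by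
    simp only [Pi.sub_apply, Finset.sum_sub_distrib, h1, hρ, sub_self])
  have h4 := van4 (m := m) hSW hR hV P hm hB h3 1
    (fun ρ => gpol (fun T => ∑ i ∈ clS A.L T, ρ i) (M + 2) univ) (LP_gpol _ _ _)
    (fun ρ' h' => van0 hR hD hV hm hB h') ρ h0
  apply h2
  rw [one_smul, add_sub_cancel] at h4
  exact h4

end Pool.Agent.ND.H32
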