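import Pool.Agent.Helper23_ND.Rsym
import Pool.Agent.Helper37_ND.Radj
import Pool.Agent.Helper93_ND.Rloc
import Pool.Agent.Helper34_ND.Gen
import Pool.Agent.Helper93_ND.Tadj
import Pool.Agent.Helper46_ND.Comm
import Pool.Agent.Helper34_ND.Lemd
import Pool.Agent.Helper37_ND.Tsur
import Pool.Agent.Helper76_ND.TBIJ
import Pool.Agent.Helper46_ND.Fam
import Pool.Agent.Helper70_ND.Xi
import Pool.Agent.Helper20_ND.Fun
import Pool.Agent.Helper81_ND.Chn
import Pool.Agent.Helper91_ND.F1
import Pool.Agent.Helper70_ND.Sw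
import Pool.Agent.Helper97_ND.Dia
import Pool.Agent.Helper20_ND.Pos
import Pool.Agent.Helper97_ND.Spn
import Pool.Agent.Helper32_ND.End
import Pool.Agent.Helper81_ND.Rk1
import Pool.Agent.Helper38_ND.Crd
import Pool.Agent.Helper9_ND.Main
import Pool.Agent.Helper18_ND.Val
import Pool.Agent.Helper18_ND.Ndc
import Pool.Agent.Helper19_ND.Loc

/-!
# The n/d theorem for hyperplane arrangements (assembly)
-/

namespace Pool.Agent.ND

/-- the n/d theorem -/
theorem ndStmt : NdStmt := by
  have loc := H19.loc
  have rsym := H23.rsym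
  have radj := H37.radj
  have rloc := H93.rloc
  have gen := H34.gen
  have tadj := H93.tadj rsym radj
  have comm := H46.comm
  have tsur := H37.tsur H34.lemd
  have tbij := H76.tbij tsur
  have tfr := H76.tfr
  have fam := H46.fam comm tbij tsur
  have xi := H70.xi tadj tfr rsym
  have chn := H81.chn fam xi H20.fun_stmt
  have f1 := H91.f1 chn fam loc rloc H18.val
  have sw := H70.sw tadj tbij tsur tfr comm
  have end_ := H32.end_ sw rloc (H97.dia rloc) H20.pos H97.spn H18.val
  exact H9.main (H18.ndc gen f1 end_) H81.rk1 H38.crd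

end Pool.Agent.ND
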