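import Pool.Agent.Helper32_ND.Stmts

/-!
# The n/d theorem for central essential indecomposable arrangements
-/

set_option autoImplicit false

namespace Pool.Agent.ND

open MvPolynomial Finset

section

variable {σ : Type} [Fintype σ]

theorem lp_linform (L : σ → ℂ) : lp (∑ l, C (L l) * X l : MvPolynomial σ ℂ) = L := by
  classical
  funext l
  unfold lp
  rw [MvPolynomial.coeff_sum, Finset.sum_eq_single l]
  · rw [MvPolynomial.coeff_C_mul, MvPolynomial.coeff_X, if_pos rfl, mul_one]
  · intro l' _ h
    rw [MvPolynomial.coeff_C_mul, MvPolynomial.coeff_X,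
      if_neg (fun h' => h (Finsupp.single_left_injective one_ne_zero h')), mul_zero]
  · intro h
    exact absurd (Finset.mem_univ l) h

theorem totalDegree_linform (L : σ → ℂ) (hL : L ≠ 0) :
    (∑ l, C (L l) * X l : MvPolynomial σ ℂ).totalDegree = 1 := by
  classical
  apply le_antisymm
  · refine MvPolynomial.totalDegree_finsetSum_le fun l _ => ?_
    refine (MvPolynomial.totalDegree_mul _ _).trans ?_
    rw [MvPolynomial.totalDegree_C, zero_add, MvPolynomial.totalDegree_X]
  · obtain ⟨l, hl⟩ := Function.ne_iff.1 hL
    have h1 : Finsupp.single l 1 ∈ (∑ l, C (L l) * X l : MvPolynomial σ ℂ).support := by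
      rw [MvPolynomial.mem_support_iff]
      have := congrFun (lp_linform L) l
      unfold lp at this
      rw [this]
      exact hl
    have h2 := MvPolynomial.le_totalDegree h1
    rwa [Finsupp.sum_single_index (by rfl)] at h2

/-- the n/d theorem: `f` is a product of powers of linear forms which span the space of all linear
forms in `n` variables and which cannot be divided into two nonempty parts with independent spans;
then `-n/d` is a root of the Bernstein-Sato polynomial, `d` the degree of `f` -/
theorem nd_central (nd : NdStmt) {ι : Type} [Fintype ι] [Nonempty σ] (L : ι → σ → ℂ)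
    (hL : ∀ i, L i ≠ 0) (hspan : Submodule.span ℂ (Set.range L) = ⊤)
    (hind : ∀ S : Set ι, S.Nonempty → Sᶜ.Nonempty →
      ¬ Disjoint (Submodule.span ℂ (L '' S)) (Submodule.span ℂ (L '' Sᶜ)))
    (m : ι → ℕ) (hm : ∀ i, 0 < m i) :
    (Helper6_Mono.bfun (∏ i, (∑ l, C (L i l) * X l) ^ m i)).eval
      (-(Fintype.card σ : ℂ) / ((∑ i, m i : ℕ) : ℂ)) = 0 := by
  have hne : Nonempty ι := by
    by_contra h
    rw [not_nonempty_iff] at h
    rw [Set.range_eq_empty, Submodule.span_empty] at hspan
    exact bot_ne_top hspan
  have h := nd σ ι (fun i => ∑ l, C (L i l) * X l) (fun i => totalDegree_linform _ (hL i)) m hm 0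
    (fun i => by simp) 1 (by simp) (by
      simp only [lp_linform]
      exact hind)
  have e1 : (fun i => lp (∑ l, C (L i l) * X l : MvPolynomial σ ℂ)) = L :=
    funext fun i => lp_linform (L i)
  have e2 : Module.finrank ℂ (Submodule.span ℂ
      (Set.range fun i => lp (∑ l, C (L i l) * X l : MvPolynomial σ ℂ))) = Fintype.card σ := by
    rw [e1, hspan, finrank_top, Module.finrank_fintype_fun_eq_card]
  rw [mul_one, e2] at h
  exact h

end

end Pool.Agent.ND
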