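import Mathlib

/-!
# The n/d theorem for hyperplane arrangements: definitions

`OS A K r` is the degree `r` part of the Orlik-Solomon algebra with coefficients in `K`, presented
by tuples: generators `e F`, `F : Fin r → ι`, modulo the dependent tuples and the boundaries of
the dependent `(r+1)`-tuples.
-/

set_option autoImplicit false
set_option linter.unusedVariables false
set_option linter.unusedSectionVars false

namespace Pool.Agent.ND

open Finset

/-- a finite family of nonzero linear forms on `ℂ^n` -/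
structure Arr (ι : Type) (n : ℕ) where
  L : ι → Fin n → ℂ
  ne : ∀ i, L i ≠ 0

section

variable {ι : Type} [Fintype ι] [DecidableEq ι] {n : ℕ}

/-- the tuple `F` is linearly independent -/
def Arr.Ind (A : Arr ι n) {r : ℕ} (F : Fin r → ι) : Prop :=
  LinearIndependent ℂ (fun k => A.L (F k))

open Classical in
/-- the closure of a tuple -/
noncomputable def Arr.cl (A : Arr ι n) {r : ℕ} (F : Fin r → ι) : Finset ι :=
  univ.filter fun i => A.L i ∈ Submodule.span ℂ (Set.range fun k => A.L (F k))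

theorem Arr.mem_cl (A : Arr ι n) {r : ℕ} (F : Fin r → ι) (i : ι) :
    i ∈ A.cl F ↔ A.L i ∈ Submodule.span ℂ (Set.range fun k => A.L (F k)) := by
  unfold Arr.cl
  simp

variable (A : Arr ι n) (K : Type) [Field K]

/-- the boundary of a tuple -/
noncomputable def bdC {r : ℕ} (S : Fin (r + 1) → ι) : (Fin r → ι) →₀ K :=
  ∑ k : Fin (r + 1), Finsupp.single (S ∘ k.succAbove) ((-1 : K) ^ (k : ℕ))

/-- the relations -/
noncomputable def rel (r : ℕ) : Submodule K ((Fin r → ι) →₀ K) :=
  Submodule.span K ({x | ∃ F : Fin r → ι, ¬ A.Ind F ∧ x = Finsupp.single F 1} ∪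
    {x | ∃ S : Fin (r + 1) → ι, ¬ A.Ind S ∧ x = bdC K S})

/-- the degree `r` part of the Orlik-Solomon algebra -/
def OS (r : ℕ) : Type := ((Fin r → ι) →₀ K) ⧸ rel A K r

noncomputable instance instOSg (r : ℕ) : AddCommGroup (OS A K r) :=
  inferInstanceAs (AddCommGroup (((Fin r → ι) →₀ K) ⧸ rel A K r))

noncomputable instance instOSm (r : ℕ) : Module K (OS A K r) :=
  inferInstanceAs (Module K (((Fin r → ι) →₀ K) ⧸ rel A K r))

/-- the quotient map -/
noncomputable def mkOS (r : ℕ) : ((Fin r → ι) →₀ K) →ₗ[K] OS A K r := (rel A K r).mkQ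

/-- the generator of the tuple `F` -/
noncomputable def e {r : ℕ} (F : Fin r → ι) : OS A K r := mkOS A K r (Finsupp.single F 1)

variable {A K}

theorem e_dep {r : ℕ} {F : Fin r → ι} (h : ¬ A.Ind F) : e A K F = 0 := by
  refine (Submodule.Quotient.mk_eq_zero _).2 (Submodule.subset_span (Or.inl ⟨F, h, rfl⟩))

theorem mk_bdC {r : ℕ} (S : Fin (r + 1) → ι) :
    mkOS A K r (bdC K S) = ∑ k : Fin (r + 1), ((-1 : K) ^ (k : ℕ)) • e A K (S ∘ k.succAbove) := by
  unfold bdC e
  rw [map_sum]
  refine Finset.sum_congr rfl fun k _ => ?_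
  rw [← map_smul, Finsupp.smul_single, smul_eq_mul, mul_one]

theorem bd_dep {r : ℕ} {S : Fin (r + 1) → ι} (h : ¬ A.Ind S) :
    ∑ k : Fin (r + 1), ((-1 : K) ^ (k : ℕ)) • e A K (S ∘ k.succAbove) = 0 := by
  rw [← mk_bdC]
  exact (Submodule.Quotient.mk_eq_zero _).2 (Submodule.subset_span (Or.inr ⟨S, h, rfl⟩))

/-- linear maps out of `OS` -/
noncomputable def lift {r : ℕ} {N : Type} [AddCommGroup N] [Module K N] (φ : (Fin r → ι) → N)
    (h1 : ∀ F, ¬ A.Ind F → φ F = 0)
    (h2 : ∀ S : Fin (r + 1) → ι, ¬ A.Ind S →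
      ∑ k : Fin (r + 1), ((-1 : K) ^ (k : ℕ)) • φ (S ∘ k.succAbove) = 0) : OS A K r →ₗ[K] N :=
  (rel A K r).liftQ (Finsupp.lift N K (Fin r → ι) φ) (by
    unfold rel
    rw [Submodule.span_le]
    rintro x (⟨F, hF, rfl⟩ | ⟨S, hS, rfl⟩)
    · simp only [SetLike.mem_coe, LinearMap.mem_ker]
      rw [Finsupp.lift_apply, Finsupp.sum_single_index (by simp), h1 F hF, smul_zero]
    · simp only [SetLike.mem_coe, LinearMap.mem_ker]
      rw [← h2 S hS, bdC, map_sum]
      refine Finset.sum_congr rfl fun k _ => ?_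
      rw [Finsupp.lift_apply, Finsupp.sum_single_index (by simp)])

theorem lift_e {r : ℕ} {N : Type} [AddCommGroup N] [Module K N] (φ : (Fin r → ι) → N)
    (h1 : ∀ F, ¬ A.Ind F → φ F = 0)
    (h2 : ∀ S : Fin (r + 1) → ι, ¬ A.Ind S →
      ∑ k : Fin (r + 1), ((-1 : K) ^ (k : ℕ)) • φ (S ∘ k.succAbove) = 0) (F : Fin r → ι) :
    lift φ h1 h2 (e A K F) = φ F := by
  have h : lift φ h1 h2 (e A K F) = Finsupp.lift N K (Fin r → ι) φ (Finsupp.single F 1) :=
    Submodule.liftQ_apply _ _ _
  rw [h, Finsupp.lift_apply, Finsupp.sum_single_index (by simp), one_smul]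

/-- the generators span -/
theorem span_e (r : ℕ) : Submodule.span K (Set.range (e A K : (Fin r → ι) → OS A K r)) = ⊤ := by
  rw [eq_top_iff]
  intro x _
  obtain ⟨y, rfl⟩ := Submodule.mkQ_surjective (rel A K r) x
  show mkOS A K r y ∈ _
  induction y using Finsupp.induction_linear with
  | zero => rw [map_zero]; exact Submodule.zero_mem _
  | add a b ha hb => rw [map_add]; exact Submodule.add_mem _ (ha trivial) (hb trivial)
  | single F c =>
    have h : mkOS A K r (Finsupp.single F c) = c • e A K F := by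
      unfold e
      rw [← map_smul, Finsupp.smul_single, smul_eq_mul, mul_one]
    rw [h]
    exact Submodule.smul_mem _ _ (Submodule.subset_span ⟨F, rfl⟩)

theorem hom_ext {r : ℕ} {N : Type} [AddCommGroup N] [Module K N] {f g : OS A K r →ₗ[K] N}
    (h : ∀ F, f (e A K F) = g (e A K F)) : f = g := by
  refine LinearMap.ext_on_range (v := (e A K : (Fin r → ι) → OS A K r)) (span_e r) h

end

end Pool.Agent.ND
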