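import Pool.Agent.Helper32_ND.Ops

/-!
# The n/d theorem: bilinear forms, shift operators, families
-/

set_option autoImplicit false
set_option linter.unusedVariables false
set_option linter.unusedSectionVars false

namespace Pool.Agent.ND

open Finset

section

variable {ι : Type} [Fintype ι] [DecidableEq ι] {n : ℕ} {A : Arr ι n} {K : Type} [Field K]

theorem Ind_empty (F : Fin 0 → ι) : A.Ind F := by
  unfold Arr.Ind
  exact linearIndependent_empty_type

theorem Ind_one (S : Fin 1 → ι) : A.Ind S := by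
  unfold Arr.Ind
  exact LinearIndependent.of_subsingleton 0 (A.ne _)

variable (A K) in
/-- the isomorphism of the degree zero part with `K` -/
noncomputable def eps0 : OS A K 0 →ₗ[K] K :=
  lift (fun _ => 1) (fun F hF => absurd (Ind_empty F) hF) (fun S hS => absurd (Ind_one S) hS)

variable (A) in
/-- the bilinear forms: `ρ(X) R(a, b) = R(d a, d b)` for `a`, `b` in the component of the flat `X`,
and the components of different flats are orthogonal -/
noncomputable def R (ρ : ι → K) : (r : ℕ) → OS A K r →ₗ[K] OS A K r →ₗ[K] K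
  | 0 => (LinearMap.mul K K).compl₁₂ (eps0 A K) (eps0 A K)
  | r + 1 => ∑ X : Finset ι, (∑ i ∈ X, ρ i)⁻¹ •
      (R ρ r).compl₁₂ ((bd A K r).comp (pr (r + 1) X)) ((bd A K r).comp (pr (r + 1) X))

theorem R_zero (ρ : ι → K) (a b : OS A K 0) :
    R A ρ 0 a b = eps0 A K a * eps0 A K b := rfl

theorem R_succ (ρ : ι → K) (r : ℕ) (a b : OS A K (r + 1)) :
    R A ρ (r + 1) a b = ∑ X : Finset ι, (∑ i ∈ X, ρ i)⁻¹ *
      R A ρ r (bd A K r (pr (r + 1) X a)) (bd A K r (pr (r + 1) X b)) := by
  show (∑ X : Finset ι, (∑ i ∈ X, ρ i)⁻¹ •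
      (R A ρ r).compl₁₂ ((bd A K r).comp (pr (r + 1) X)) ((bd A K r).comp (pr (r + 1) X))) a b = _
  simp [LinearMap.sum_apply, LinearMap.compl₁₂_apply]

variable (A) in
/-- the lattice spanned by the generators over the subring `O` -/
noncomputable def Lat (O : Subring K) (r : ℕ) : Submodule O (OS A K r) :=
  Submodule.span O (Set.range (e A K : (Fin r → ι) → OS A K r))

/-- all sums over nonempty sets are different from zero -/
def NR (ρ : ι → K) : Prop := ∀ X : Finset ι, X.Nonempty → ∑ i ∈ X, ρ i ≠ 0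

/-- `ρ` has values in `O` and the sums over the sets which contain `j` are units of `O` -/
def UnitAt (O : Subring K) (ρ : ι → K) (j : ι) : Prop :=
  (∀ i, ρ i ∈ O) ∧ ∀ X : Finset ι, j ∈ X → ∑ i ∈ X, ρ i ≠ 0 ∧ (∑ i ∈ X, ρ i)⁻¹ ∈ O

/-- the unit vector -/
def ev (j : ι) : ι → K := Pi.single j 1

end

section

variable {ι : Type} [Fintype ι] [DecidableEq ι] {M : ℕ}

/-- Points: a linear form `l0` in general position, for every flat `X` of rank `n - 1` the point
`v X` of the line `X` with `l0 = 1`, for every flat `Y` of rank `n - 2` a parametrization of the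
affine line `Y`, `l0 = 1`. -/
structure Pts (A : Arr ι (M + 2)) where
  l0 : Fin (M + 2) → ℂ
  v : Finset ι → Fin (M + 2) → ℂ
  p : Finset ι → Fin (M + 2) → ℂ
  q : Finset ι → Fin (M + 2) → ℂ
  u : Finset ι → Finset ι → ℂ
  v0 : ∀ F : Fin (M + 1) → ι, A.Ind F → dotProduct l0 (v (A.cl F)) = 1
  vmem : ∀ F : Fin (M + 1) → ι, A.Ind F → ∀ i,
    dotProduct (A.L i) (v (A.cl F)) = 0 ↔ i ∈ A.cl F
  line : ∀ F : Fin (M + 1) → ι, A.Ind F → ∀ k : Fin (M + 1),
    v (A.cl F) = p (A.cl (F ∘ k.succAbove))
      + u (A.cl (F ∘ k.succAbove)) (A.cl F) • q (A.cl (F ∘ k.succAbove))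

variable {A : Arr ι (M + 2)} {K : Type} [Field K] [Algebra ℂ K]

/-- the multiplication by the values of the form `j` at the points -/
noncomputable def Mj (P : Pts A) (j : ι) : OS A K (M + 1) →ₗ[K] OS A K (M + 1) :=
  dg A (M + 1) fun X => algebraMap ℂ K (dotProduct (A.L j) (P.v X))

/-- the shift operators -/
noncomputable def T (P : Pts A) (ρ : ι → K) (j : ι) : OS A K (M + 2) →ₗ[K] OS A K (M + 2) :=
  (wX (M + 1) ρ univ).comp ((Mj P j).comp (bd A K (M + 1)))

theorem T_apply (P : Pts A) (ρ : ι → K) (j : ι) (x : OS A K (M + 2)) :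
    T P ρ j x = wX (M + 1) ρ univ (Mj P j (bd A K (M + 1) x)) := rfl

/-- `t` is a family of elements with `t (κ + e_j) = T_j(σ + κ + e_j) (t κ)` -/
def IsFam (P : Pts A) (σ : ι → K) (t : (ι → ℕ) → OS A K (M + 2)) : Prop :=
  ∀ (κ : ι → ℕ) (j : ι), t (κ + Pi.single j 1) = T P (fun i => σ i + (κ i : K) + ev j i) j (t κ)

/-- the number of times that `i` occurs in the tuple `B` -/
def cnt {r : ℕ} (B : Fin r → ι) : ι → ℕ := fun i => (univ.filter fun k => B k = i).card

/-- the property `P(B, ρ)`: the value of the form on `e_B` and the elements of the lattice is in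
`O` -/
def PP (O : Subring K) (A : Arr ι (M + 2)) (B : Fin (M + 2) → ι) (ρ : ι → K) : Prop :=
  ∀ y ∈ Lat A O (M + 2), R A ρ (M + 2) (e A K B) y ∈ O

end

/-! ## Power series -/

/-- the valuation ring -/
abbrev E0 : Type := PowerSeries ℂ

/-- its field of fractions -/
abbrev K0 : Type := FractionRing (PowerSeries ℂ)

/-- the valuation ring as a subring -/
noncomputable def O0 : Subring K0 := (algebraMap E0 K0).range

/-- the parameter -/
noncomputable def t0 : K0 := algebraMap E0 K0 PowerSeries.X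

noncomputable example : Algebra ℂ K0 := inferInstance
noncomputable example : IsScalarTower ℂ E0 K0 := inferInstance

end Pool.Agent.ND
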