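import Pool.Agent.Helper32_ND.Defs

/-!
# The n/d theorem: the operators on the Orlik-Solomon algebra
-/

set_option autoImplicit false
set_option linter.unusedVariables false
set_option linter.unusedSectionVars false

namespace Pool.Agent.ND

open Finset

section

variable {ι : Type} [Fintype ι] [DecidableEq ι] {n : ℕ} {A : Arr ι n} {K : Type} [Field K]

/-! ## The free modules -/

theorem cons_succAbove_zero {r : ℕ} (i : ι) (F : Fin r → ι) :
    (Fin.cons i F : Fin (r + 1) → ι) ∘ (0 : Fin (r + 1)).succAbove = F := by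
  funext k
  simp

theorem cons_succAbove_succ {r : ℕ} (i : ι) (F : Fin (r + 1) → ι) (k : Fin (r + 1)) :
    (Fin.cons i F : Fin (r + 2) → ι) ∘ (k.succ).succAbove
      = (Fin.cons i (F ∘ k.succAbove) : Fin (r + 1) → ι) := by
  funext j
  refine Fin.cases ?_ (fun j => ?_) j
  · simp
  · simp

theorem bdC_cons {r : ℕ} (i : ι) (F : Fin (r + 1) → ι) :
    bdC K (Fin.cons i F : Fin (r + 2) → ι) = Finsupp.single F 1
      - ∑ k : Fin (r + 1), Finsupp.single (Fin.cons i (F ∘ k.succAbove) : Fin (r + 1) → ι)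
          ((-1 : K) ^ (k : ℕ)) := by
  unfold bdC
  rw [Fin.sum_univ_succ, cons_succAbove_zero, Fin.val_zero, pow_zero, sub_eq_add_neg,
    ← Finset.sum_neg_distrib]
  congr 1
  refine Finset.sum_congr rfl fun k _ => ?_
  rw [cons_succAbove_succ, ← Finsupp.single_neg, Fin.val_succ, pow_succ]
  congr 1
  ring

theorem bdC_cons_zero (i : ι) (F : Fin 0 → ι) :
    bdC K (Fin.cons i F : Fin 1 → ι) = Finsupp.single F 1 := by
  unfold bdC
  rw [Fin.sum_univ_succ, cons_succAbove_zero]
  simp

/-- the boundary on the free modules -/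
noncomputable def bdL (r : ℕ) : ((Fin (r + 1) → ι) →₀ K) →ₗ[K] ((Fin r → ι) →₀ K) :=
  Finsupp.lift _ K (Fin (r + 1) → ι) (bdC K)

theorem bdL_single {r : ℕ} (S : Fin (r + 1) → ι) (c : K) :
    bdL r (Finsupp.single S c) = c • bdC K S := by
  unfold bdL
  rw [Finsupp.lift_apply, Finsupp.sum_single_index (by simp)]

/-- the wedge product on the free modules -/
noncomputable def wdL (r : ℕ) (i : ι) : ((Fin r → ι) →₀ K) →ₗ[K] ((Fin (r + 1) → ι) →₀ K) :=
  Finsupp.lift _ K (Fin r → ι) fun F => Finsupp.single (Fin.cons i F) 1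

theorem wdL_single {r : ℕ} (i : ι) (F : Fin r → ι) (c : K) :
    wdL r i (Finsupp.single F c) = Finsupp.single (Fin.cons i F : Fin (r + 1) → ι) c := by
  unfold wdL
  rw [Finsupp.lift_apply, Finsupp.sum_single_index (by simp), Finsupp.smul_single, smul_eq_mul,
    mul_one]

theorem bdL_wdL {r : ℕ} (i : ι) (x : (Fin (r + 1) → ι) →₀ K) :
    bdL (r + 1) (wdL (r + 1) i x) = x - wdL r i (bdL r x) := by
  induction x using Finsupp.induction_linear with
  | zero => simp
  | add a b ha hb => simp only [map_add, ha, hb]; abel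
  | single F c =>
    rw [wdL_single, bdL_single, bdL_single, bdC_cons, smul_sub, map_smul]
    congr 1
    · rw [Finsupp.smul_single, smul_eq_mul, mul_one]
    · congr 1
      unfold bdC
      rw [map_sum]
      refine Finset.sum_congr rfl fun k _ => ?_
      rw [wdL_single]

theorem bdL_wdL_zero (i : ι) (x : (Fin 0 → ι) →₀ K) :
    bdL 0 (wdL 0 i x) = x := by
  induction x using Finsupp.induction_linear with
  | zero => simp
  | add a b ha hb => simp only [map_add, ha, hb]
  | single F c =>
    rw [wdL_single, bdL_single, bdC_cons_zero, Finsupp.smul_single, smul_eq_mul, mul_one]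

theorem bdL_bdL (r : ℕ) (x : (Fin (r + 2) → ι) →₀ K) : bdL r (bdL (r + 1) x) = 0 := by
  induction r with
  | zero =>
    induction x using Finsupp.induction_linear with
    | zero => simp
    | add a b ha hb => simp only [map_add, ha, hb, add_zero]
    | single F c =>
      have h : Finsupp.single F c = wdL 1 (F 0) (Finsupp.single (Fin.tail F) c) := by
        rw [wdL_single, Fin.cons_self_tail]
      have h2 : Finsupp.single (Fin.tail F) c
          = wdL 0 (Fin.tail F 0) (Finsupp.single (Fin.tail (Fin.tail F)) c) := by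
        rw [wdL_single, Fin.cons_self_tail]
      rw [h, bdL_wdL, map_sub, h2, bdL_wdL_zero, bdL_wdL_zero, sub_self]
  | succ r ih =>
    induction x using Finsupp.induction_linear with
    | zero => simp
    | add a b ha hb => simp only [map_add, ha, hb, add_zero]
    | single F c =>
      have h : Finsupp.single F c = wdL (r + 2) (F 0) (Finsupp.single (Fin.tail F) c) := by
        rw [wdL_single, Fin.cons_self_tail]
      rw [h, bdL_wdL, map_sub, bdL_wdL, ih, map_zero, sub_zero, sub_self]

/-! ## Closures -/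

theorem Ind_cons_dep {r : ℕ} {F : Fin r → ι} (h : ¬ A.Ind F) (i : ι) :
    ¬ A.Ind (Fin.cons i F : Fin (r + 1) → ι) := by
  intro h2
  apply h
  have h3 := h2.comp Fin.succ (Fin.succ_injective r)
  exact h3

theorem Ind_tail {r : ℕ} {i : ι} {F : Fin r → ι} (h : A.Ind (Fin.cons i F : Fin (r + 1) → ι)) :
    A.Ind F := by
  by_contra h2
  exact Ind_cons_dep h2 i h

theorem Ind_comp {r q : ℕ} {F : Fin r → ι} (h : A.Ind F) (g : Fin q → Fin r)
    (hg : Function.Injective g) : A.Ind (F ∘ g) := h.comp g hg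

theorem Ind_face {r : ℕ} {F : Fin (r + 1) → ι} (h : A.Ind F) (k : Fin (r + 1)) :
    A.Ind (F ∘ k.succAbove) := Ind_comp h _ Fin.succAbove_right_injective

theorem span_comp_le {r q : ℕ} (F : Fin r → ι) (g : Fin q → Fin r) :
    Submodule.span ℂ (Set.range fun k => A.L ((F ∘ g) k))
      ≤ Submodule.span ℂ (Set.range fun k => A.L (F k)) := by
  refine Submodule.span_mono ?_
  rintro x ⟨k, rfl⟩
  exact ⟨g k, rfl⟩

/-- every element of the tuple is in the closure -/
theorem self_mem_cl {r : ℕ} (F : Fin r → ι) (k : Fin r) : F k ∈ A.cl F := by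
  rw [Arr.mem_cl]
  exact Submodule.subset_span ⟨k, rfl⟩

/-- the span of the closure -/
theorem cl_subset_of {r q : ℕ} {F : Fin r → ι} {G : Fin q → ι} (h : ∀ k, F k ∈ A.cl G) :
    A.cl F ⊆ A.cl G := by
  intro i hi
  rw [Arr.mem_cl] at hi ⊢
  refine (Submodule.span_le.2 ?_) hi
  rintro x ⟨k, rfl⟩
  exact (A.mem_cl G (F k)).1 (h k)

theorem cl_comp_subset {r q : ℕ} (F : Fin r → ι) (g : Fin q → Fin r) :
    A.cl (F ∘ g) ⊆ A.cl F := cl_subset_of fun k => self_mem_cl F (g k)

/-- the family `cons i F` is independent iff `F` is and `i` is not in the closure -/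
theorem Ind_cons_iff {r : ℕ} (i : ι) (F : Fin r → ι) :
    A.Ind (Fin.cons i F : Fin (r + 1) → ι) ↔ A.Ind F ∧ i ∉ A.cl F := by
  unfold Arr.Ind
  have h : (fun k => A.L ((Fin.cons i F : Fin (r + 1) → ι) k))
      = (Fin.cons (A.L i) (fun k => A.L (F k)) : Fin (r + 1) → (Fin n → ℂ)) := by
    funext k
    refine Fin.cases ?_ (fun k => ?_) k
    · simp
    · simp
  rw [h, linearIndependent_finCons, Arr.mem_cl]

theorem cons_cycle {r : ℕ} (S : Fin (r + 1) → ι) (j : Fin (r + 1)) :
    (Fin.cons (S j) (S ∘ j.succAbove) : Fin (r + 1) → ι) = S ∘ j.cycleRange.symm := by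
  funext k
  refine Fin.cases ?_ (fun k => ?_) k
  · simp [Fin.cycleRange_symm_zero]
  · simp [Fin.cycleRange_symm_succ]

theorem Ind_cons_cycle {r : ℕ} (S : Fin (r + 1) → ι) (j : Fin (r + 1)) :
    A.Ind (Fin.cons (S j) (S ∘ j.succAbove) : Fin (r + 1) → ι) ↔ A.Ind S := by
  rw [cons_cycle]
  unfold Arr.Ind
  exact linearIndependent_equiv (j.cycleRange.symm) (f := fun k => A.L (S k))

/-- all independent faces of a dependent tuple have the closure of the tuple -/
theorem cl_face {r : ℕ} {S : Fin (r + 1) → ι} (hS : ¬ A.Ind S) (k : Fin (r + 1))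
    (hk : A.Ind (S ∘ k.succAbove)) : A.cl (S ∘ k.succAbove) = A.cl S := by
  refine Finset.Subset.antisymm (cl_comp_subset _ _) (cl_subset_of fun j => ?_)
  by_cases hj : j = k
  · subst hj
    by_contra h
    exact hS ((Ind_cons_cycle S j).1 ((Ind_cons_iff _ _).2 ⟨hk, h⟩))
  · obtain ⟨q, rfl⟩ := Fin.exists_succAbove_eq hj
    exact self_mem_cl (S ∘ k.succAbove) q

/-! ## The operators -/

variable (A K) in
/-- the boundary -/
noncomputable def bd (r : ℕ) : OS A K (r + 1) →ₗ[K] OS A K r :=
  lift (fun F => mkOS A K r (bdC K F)) (fun F hF => by rw [mk_bdC]; exact bd_dep hF)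
    (fun S _ => by
      have h := bdL_bdL r (Finsupp.single S (1 : K))
      rw [bdL_single, one_smul] at h
      have h2 : (bdL r) (bdC K S) = ∑ k : Fin (r + 2), ((-1 : K) ^ (k : ℕ)) • bdC K (S ∘ k.succAbove) := by
        rw [bdC, map_sum]
        refine Finset.sum_congr rfl fun k _ => ?_
        rw [bdL_single]
      rw [h2] at h
      have h3 := congrArg (mkOS A K r) h
      rw [map_sum, map_zero] at h3
      rw [← h3]
      refine Finset.sum_congr rfl fun k _ => ?_
      rw [map_smul])

theorem bd_e {r : ℕ} (F : Fin (r + 1) → ι) :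
    bd A K r (e A K F) = ∑ k : Fin (r + 1), ((-1 : K) ^ (k : ℕ)) • e A K (F ∘ k.succAbove) := by
  unfold bd
  rw [lift_e, mk_bdC]

variable (A K) in
/-- the wedge product with the generator of degree one -/
noncomputable def wd (r : ℕ) (i : ι) : OS A K r →ₗ[K] OS A K (r + 1) :=
  lift (fun F => e A K (Fin.cons i F : Fin (r + 1) → ι)) (fun F hF => e_dep (Ind_cons_dep hF i))
    (fun S hS => by
      have h := bd_dep (K := K) (Ind_cons_dep hS i)
      rw [Fin.sum_univ_succ, cons_succAbove_zero, e_dep hS, smul_zero, zero_add] at h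
      rw [← neg_eq_zero, ← Finset.sum_neg_distrib, ← h]
      refine Finset.sum_congr rfl fun k _ => ?_
      rw [cons_succAbove_succ, Fin.val_succ, pow_succ, mul_neg_one, neg_smul])

theorem wd_e {r : ℕ} (i : ι) (F : Fin r → ι) :
    wd A K r i (e A K F) = e A K (Fin.cons i F : Fin (r + 1) → ι) := lift_e _ _ _ _

variable (A) in
/-- the diagonal operator with the weights `w` -/
noncomputable def dg (r : ℕ) (w : Finset ι → K) : OS A K r →ₗ[K] OS A K r :=
  lift (fun F => w (A.cl F) • e A K F) (fun F hF => by rw [e_dep hF, smul_zero])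
    (fun S hS => by
      have h : ∀ k : Fin (r + 1), ((-1 : K) ^ (k : ℕ)) • (w (A.cl (S ∘ k.succAbove)) •
          e A K (S ∘ k.succAbove)) = w (A.cl S) • (((-1 : K) ^ (k : ℕ)) • e A K (S ∘ k.succAbove)) := by
        intro k
        by_cases hk : A.Ind (S ∘ k.succAbove)
        · rw [cl_face hS k hk, smul_comm]
        · simp [e_dep hk]
      rw [Finset.sum_congr rfl fun k _ => h k, ← Finset.smul_sum, bd_dep hS, smul_zero])

theorem dg_e {r : ℕ} (w : Finset ι → K) (F : Fin r → ι) :
    dg A r w (e A K F) = w (A.cl F) • e A K F := lift_e _ _ _ _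

/-- the weighted sum of the wedge products over the elements of `X` -/
noncomputable def wX (r : ℕ) (ρ : ι → K) (X : Finset ι) : OS A K r →ₗ[K] OS A K (r + 1) :=
  ∑ i ∈ X, ρ i • wd A K r i

theorem wX_apply {r : ℕ} (ρ : ι → K) (X : Finset ι) (x : OS A K r) :
    wX r ρ X x = ∑ i ∈ X, ρ i • wd A K r i x := by
  unfold wX
  simp [LinearMap.sum_apply]

/-- the projection to the component with closure `X` -/
noncomputable def pr (r : ℕ) (X : Finset ι) : OS A K r →ₗ[K] OS A K r :=
  dg A r fun Y => if Y = X then 1 else 0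

/-! ## Identities -/

theorem bd_bd {r : ℕ} (x : OS A K (r + 2)) : bd A K r (bd A K (r + 1) x) = 0 := by
  have h : (bd A K r).comp (bd A K (r + 1)) = 0 := by
    refine hom_ext fun F => ?_
    have h2 := bdL_bdL r (Finsupp.single F (1 : K))
    rw [bdL_single, one_smul, bdC, map_sum] at h2
    have h3 := congrArg (mkOS A K r) h2
    rw [map_sum, map_zero] at h3
    rw [LinearMap.comp_apply, bd_e, map_sum, LinearMap.zero_apply, ← h3]
    refine Finset.sum_congr rfl fun k _ => ?_
    rw [map_smul, bd_e, bdL_single, map_smul, mk_bdC]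
  exact LinearMap.congr_fun h x

theorem bd_wd {r : ℕ} (i : ι) (x : OS A K (r + 1)) :
    bd A K (r + 1) (wd A K (r + 1) i x) = x - wd A K r i (bd A K r x) := by
  have h : (bd A K (r + 1)).comp (wd A K (r + 1) i) = LinearMap.id - (wd A K r i).comp (bd A K r) := by
    refine hom_ext fun F => ?_
    rw [LinearMap.comp_apply, wd_e, LinearMap.sub_apply, LinearMap.id_apply, LinearMap.comp_apply,
      bd_e, bd_e, Fin.sum_univ_succ, cons_succAbove_zero, Fin.val_zero, pow_zero, one_smul,
      sub_eq_add_neg, map_sum, ← Finset.sum_neg_distrib]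
    congr 1
    refine Finset.sum_congr rfl fun k _ => ?_
    rw [cons_succAbove_succ, map_smul, wd_e, Fin.val_succ, pow_succ, mul_neg_one, neg_smul]
  exact LinearMap.congr_fun h x

theorem bd_wd_zero (i : ι) (x : OS A K 0) : bd A K 0 (wd A K 0 i x) = x := by
  have h : (bd A K 0).comp (wd A K 0 i) = LinearMap.id := by
    refine hom_ext fun F => ?_
    rw [LinearMap.comp_apply, wd_e, LinearMap.id_apply, bd_e, Fin.sum_univ_succ,
      cons_succAbove_zero]
    simp
  exact LinearMap.congr_fun h x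

theorem wd_e_mem {r : ℕ} {i : ι} {F : Fin r → ι} (h : i ∈ A.cl F) : wd A K r i (e A K F) = 0 := by
  rw [wd_e]
  exact e_dep fun h2 => ((Ind_cons_iff i F).1 h2).2 h

theorem wd_bd_mem {r : ℕ} {i : ι} {F : Fin (r + 1) → ι} (h : i ∈ A.cl F) :
    wd A K r i (bd A K r (e A K F)) = e A K F := by
  have h2 := bd_wd i (e A K F)
  rw [wd_e_mem h, map_zero] at h2
  exact (sub_eq_zero.1 h2.symm).symm

/-- moving the entry `j` to the front -/
theorem e_front {r : ℕ} (S : Fin (r + 1) → ι) (j : Fin (r + 1)) :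
    e A K (Fin.cons (S j) (S ∘ j.succAbove) : Fin (r + 1) → ι) = ((-1 : K) ^ (j : ℕ)) • e A K S := by
  have h := wd_bd_mem (K := K) (self_mem_cl (A := A) S j)
  rw [bd_e, map_sum, Finset.sum_eq_single j] at h
  · rw [map_smul, wd_e] at h
    rw [← h, smul_smul, ← pow_add, ← two_mul, pow_mul, neg_one_sq, one_pow, one_smul]
  · intro k _ hk
    rw [map_smul, wd_e_mem, smul_zero]
    obtain ⟨q, hq⟩ := Fin.exists_succAbove_eq (Ne.symm hk)
    have := self_mem_cl (A := A) (S ∘ k.succAbove) q
    rwa [Function.comp_apply, hq] at this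
  · intro h2
    exact absurd (Finset.mem_univ j) h2

theorem wd_wd {r : ℕ} (i j : ι) (x : OS A K r) :
    wd A K (r + 1) i (wd A K r j x) = - wd A K (r + 1) j (wd A K r i x) := by
  have h : (wd A K (r + 1) i).comp (wd A K r j) = -((wd A K (r + 1) j).comp (wd A K r i)) := by
    refine hom_ext fun F => ?_
    rw [LinearMap.comp_apply, LinearMap.neg_apply, LinearMap.comp_apply, wd_e, wd_e, wd_e, wd_e]
    have h2 := e_front (A := A) (K := K)
      (Fin.cons i (Fin.cons j F : Fin (r + 1) → ι) : Fin (r + 2) → ι) 1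
    have h3 : ((Fin.cons i (Fin.cons j F : Fin (r + 1) → ι) : Fin (r + 2) → ι) ∘
        (1 : Fin (r + 2)).succAbove) = (Fin.cons i F : Fin (r + 1) → ι) := by
      have := cons_succAbove_succ i (Fin.cons j F : Fin (r + 1) → ι) 0
      rw [cons_succAbove_zero] at this
      exact this
    rw [h3] at h2
    have h4 : (Fin.cons i (Fin.cons j F : Fin (r + 1) → ι) : Fin (r + 2) → ι) 1 = j := by
      have : (1 : Fin (r + 2)) = Fin.succ 0 := rfl
      rw [this, Fin.cons_succ, Fin.cons_zero]
    rw [h4] at h2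
    rw [h2]
    simp
  exact LinearMap.congr_fun h x

theorem wd_self {r : ℕ} (i : ι) (x : OS A K r) : wd A K (r + 1) i (wd A K r i x) = 0 := by
  have h : (wd A K (r + 1) i).comp (wd A K r i) = 0 := by
    refine hom_ext fun F => ?_
    rw [LinearMap.comp_apply, wd_e, LinearMap.zero_apply]
    refine wd_e_mem ?_
    have := self_mem_cl (A := A) (Fin.cons i F : Fin (r + 1) → ι) 0
    rwa [Fin.cons_zero] at this
  exact LinearMap.congr_fun h x

theorem bd_wX {r : ℕ} (ρ : ι → K) (X : Finset ι) (x : OS A K (r + 1)) :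
    bd A K (r + 1) (wX (r + 1) ρ X x) = (∑ i ∈ X, ρ i) • x - wX r ρ X (bd A K r x) := by
  rw [wX_apply, wX_apply, map_sum, Finset.sum_smul, ← Finset.sum_sub_distrib]
  refine Finset.sum_congr rfl fun i _ => ?_
  rw [map_smul, bd_wd, smul_sub]

theorem wX_wX {r : ℕ} (ρ : ι → K) (X : Finset ι) (x : OS A K r) :
    wX (r + 1) ρ X (wX r ρ X x) = 0 := by
  have h1 : wX (r + 1) ρ X (wX r ρ X x)
      = ∑ p ∈ X ×ˢ X, (ρ p.1 * ρ p.2) • wd A K (r + 1) p.1 (wd A K r p.2 x) := by
    rw [wX_apply, Finset.sum_product]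
    refine Finset.sum_congr rfl fun i _ => ?_
    rw [wX_apply, map_sum, Finset.smul_sum]
    refine Finset.sum_congr rfl fun j _ => ?_
    rw [map_smul, smul_smul]
  rw [h1]
  refine Finset.sum_involution (fun p _ => (p.2, p.1)) ?_ ?_ ?_ ?_
  · rintro ⟨i, j⟩ _
    show (ρ i * ρ j) • wd A K (r + 1) i (wd A K r j x)
      + (ρ j * ρ i) • wd A K (r + 1) j (wd A K r i x) = 0
    rw [wd_wd i j x, smul_neg, mul_comm (ρ j), neg_add_cancel]
  · rintro ⟨i, j⟩ _ h hij
    apply h
    have : j = i := congrArg Prod.fst hij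
    subst this
    show (ρ j * ρ j) • wd A K (r + 1) j (wd A K r j x) = 0
    rw [wd_self, smul_zero]
  · rintro ⟨i, j⟩ h
    rw [Finset.mem_product] at h ⊢
    exact ⟨h.2, h.1⟩
  · rintro ⟨i, j⟩ _
    rfl

theorem dg_dg {r : ℕ} (w w' : Finset ι → K) (x : OS A K r) :
    dg A r w (dg A r w' x) = dg A r (fun X => w X * w' X) x := by
  have h : (dg A r w).comp (dg A r w') = dg A r (fun X => w X * w' X) := by
    refine hom_ext fun F => ?_
    rw [LinearMap.comp_apply, dg_e, map_smul, dg_e, dg_e, smul_smul, mul_comm]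
  exact LinearMap.congr_fun h x

end

end Pool.Agent.ND
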