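import Pool.Agent.Helper32_ND.Stmts
import Mathlib.LinearAlgebra.LinearIndependent.BaseChange

/-!
# Roots of the Bernstein-Sato polynomial of a hyperplane arrangement over a subfield of `ℂ`
-/

namespace Pool.Agent.ND

open MvPolynomial Finset

/-- the linear part of a polynomial over `k` -/
noncomputable def lpk {k : Type} [Field k] {σ : Type} (a : MvPolynomial σ k) : σ → k :=
  fun l => MvPolynomial.coeff (Finsupp.single l 1) a

section Base

variable {k : Type} [Field k] [Algebra k ℂ] {σ : Type}

theorem mem_span_map {S : Set (σ → k)} {x : σ → k} (hx : x ∈ Submodule.span k S) :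
    (algebraMap k ℂ ∘ x) ∈ Submodule.span ℂ ((fun y : σ → k => algebraMap k ℂ ∘ y) '' S) := by
  induction hx using Submodule.span_induction with
  | mem x h => exact Submodule.subset_span ⟨x, h, rfl⟩
  | zero =>
    convert Submodule.zero_mem _
    funext l
    simp
  | add x y _ _ hx hy =>
    convert Submodule.add_mem _ hx hy
    funext l
    simp
  | smul a x _ hx =>
    convert Submodule.smul_mem _ (algebraMap k ℂ a) hx
    funext l
    simp

theorem not_disjoint_map {S T : Set (σ → k)}
    (h : ¬ Disjoint (Submodule.span k S) (Submodule.span k T)) :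
    ¬ Disjoint (Submodule.span ℂ ((fun y : σ → k => algebraMap k ℂ ∘ y) '' S))
      (Submodule.span ℂ ((fun y : σ → k => algebraMap k ℂ ∘ y) '' T)) := by
  intro hd
  refine h (Submodule.disjoint_def.mpr fun x hx hy => ?_)
  have h1 := Submodule.disjoint_def.mp hd _ (mem_span_map hx) (mem_span_map hy)
  funext l
  have h2 := congrFun h1 l
  exact (algebraMap k ℂ).injective (by simpa using h2)

theorem finrank_map [Finite σ] {κ : Type} [Finite κ] (v : κ → σ → k) :
    Module.finrank ℂ (Submodule.span ℂ (Set.range fun i => algebraMap k ℂ ∘ v i))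
      = Module.finrank k (Submodule.span k (Set.range v)) := by
  obtain ⟨κ0, s, hs, hspan, hli⟩ := exists_linearIndependent' k v
  have : Finite κ0 := Finite.of_injective s hs
  have := Fintype.ofFinite κ0
  have h1 : LinearIndependent ℂ (fun i : κ0 => algebraMap k ℂ ∘ (v ∘ s) i) :=
    linearIndependent_algebraMap_comp_iff.mpr hli
  have h2 : Submodule.span ℂ (Set.range fun i : κ0 => algebraMap k ℂ ∘ (v ∘ s) i)
      = Submodule.span ℂ (Set.range fun i => algebraMap k ℂ ∘ v i) := by
    refine le_antisymm (Submodule.span_mono ?_) (Submodule.span_le.mpr ?_)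
    · rintro _ ⟨i, rfl⟩
      exact ⟨s i, rfl⟩
    · rintro _ ⟨i, rfl⟩
      have h3 : v i ∈ Submodule.span k (Set.range (v ∘ s)) := by
        rw [hspan]
        exact Submodule.subset_span ⟨i, rfl⟩
      have h4 := mem_span_map h3
      rw [← Set.range_comp] at h4
      exact h4
  rw [← h2, ← hspan, finrank_span_eq_card h1, finrank_span_eq_card hli]

end Base

/-- the root `-r/d` attached to a connected localization of a hyperplane arrangement over a
subfield of `ℂ` -/
theorem rootK (nd : NdStmt) {k : Type} [Field k] [Algebra k ℂ] {σ ι : Type} [Finite σ] [Fintype ι]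
    [DecidableEq ι] (a : ι → MvPolynomial σ k) (ha : ∀ i, (a i).totalDegree = 1) (m : ι → ℕ)
    (hm : ∀ i, 0 < m i) (c : k) (hc : c ≠ 0) (I : Finset ι) (hI : I.Nonempty) (z : σ → k)
    (hz : ∀ i, MvPolynomial.eval z (a i) = 0 ↔ i ∈ I)
    (hconn : ∀ S T : Finset ι, S ∪ T = I → Disjoint S T → S.Nonempty → T.Nonempty →
      ¬ Disjoint (Submodule.span k ((fun i => lpk (a i)) '' (S : Set ι)))
        (Submodule.span k ((fun i => lpk (a i)) '' (T : Set ι)))) :
    (Helper6_Mono.bfun (MvPolynomial.map (algebraMap k ℂ) (C c * ∏ i, a i ^ m i))).eval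
      (-((Module.finrank k (Submodule.span k ((fun i => lpk (a i)) '' (I : Set ι))) : ℕ) : ℂ)
        / ((∑ i ∈ I, m i : ℕ) : ℂ)) = 0 := by
  classical
  have : Nonempty I := ⟨⟨hI.choose, hI.choose_spec⟩⟩
  have hinj := (algebraMap k ℂ).injective
  have hlp : ∀ i, lp (MvPolynomial.map (algebraMap k ℂ) (a i)) = algebraMap k ℂ ∘ lpk (a i) := by
    intro i
    funext l
    simp [lp, lpk, MvPolynomial.coeff_map]
  have hev : ∀ p : MvPolynomial σ k, MvPolynomial.eval (fun l => algebraMap k ℂ (z l))
      (MvPolynomial.map (algebraMap k ℂ) p) = algebraMap k ℂ (MvPolynomial.eval z p) := by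
    intro p
    rw [MvPolynomial.eval_map]
    exact (MvPolynomial.eval₂_comp (algebraMap k ℂ) z p).symm
  have h := nd σ I (fun i => MvPolynomial.map (algebraMap k ℂ) (a i.1))
    (fun i => by
      unfold MvPolynomial.totalDegree
      rw [MvPolynomial.support_map_of_injective _ hinj]
      exact ha i.1) (fun i => m i.1)
    (fun i => hm i.1) (fun l => algebraMap k ℂ (z l))
    (fun i => by
      rw [hev, (hz i.1).2 i.2, map_zero])
    (MvPolynomial.map (algebraMap k ℂ) (C c * ∏ i ∈ univ \ I, a i ^ m i)) ?_ ?_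
  · have e1 : (∏ i : I, (MvPolynomial.map (algebraMap k ℂ) (a i.1)) ^ m i.1)
        * MvPolynomial.map (algebraMap k ℂ) (C c * ∏ i ∈ univ \ I, a i ^ m i)
        = MvPolynomial.map (algebraMap k ℂ) (C c * ∏ i, a i ^ m i) := by
      rw [← Finset.prod_sdiff (subset_univ I) (f := fun i => a i ^ m i),
        Finset.prod_coe_sort I (fun i => (MvPolynomial.map (algebraMap k ℂ) (a i)) ^ m i)]
      simp only [map_mul, map_prod, map_pow]
      ring
    have e2 : Module.finrank ℂ (Submodule.span ℂ
        (Set.range fun i : I => lp (MvPolynomial.map (algebraMap k ℂ) (a i.1))))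
        = Module.finrank k (Submodule.span k ((fun i => lpk (a i)) '' (I : Set ι))) := by
      have e3 : (fun i : I => lp (MvPolynomial.map (algebraMap k ℂ) (a i.1)))
          = fun i : I => algebraMap k ℂ ∘ lpk (a i.1) := funext fun i => hlp i.1
      have e4 : Set.range (fun i : I => lpk (a i.1)) = (fun i => lpk (a i)) '' (I : Set ι) := by
        ext x
        simp
      rw [e3, finrank_map (fun i : I => lpk (a i.1)), e4]
    rw [e1, e2] at h
    convert h using 3
    rw [Finset.sum_coe_sort I (fun i => m i)]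
  · rw [hev]
    refine (map_ne_zero _).mpr ?_
    rw [map_mul, MvPolynomial.eval_C, map_prod]
    refine mul_ne_zero hc (Finset.prod_ne_zero_iff.mpr fun i hi => ?_)
    rw [map_pow]
    exact pow_ne_zero _ fun h0 => (Finset.mem_sdiff.mp hi).2 ((hz i).1 h0)
  · intro S hS hS'
    have h1 := hconn (univ.filter fun i => ∃ h : i ∈ I, (⟨i, h⟩ : I) ∈ S)
      (univ.filter fun i => ∃ h : i ∈ I, (⟨i, h⟩ : I) ∉ S) ?_ ?_ ?_ ?_
    · have h2 := not_disjoint_map (σ := σ) h1
      have key : ∀ U : Set I, ((fun i : I => lp (MvPolynomial.map (algebraMap k ℂ) (a i.1))) '' U)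
          = (fun y : σ → k => algebraMap k ℂ ∘ y) '' ((fun i => lpk (a i)) ''
            ((univ.filter fun i => ∃ h : i ∈ I, (⟨i, h⟩ : I) ∈ U : Finset ι) : Set ι)) := by
        intro U
        ext x
        constructor
        · rintro ⟨i, hi, rfl⟩
          refine ⟨_, ⟨i.1, ?_, rfl⟩, (hlp i.1).symm⟩
          simp only [Finset.coe_filter, Finset.mem_univ, true_and, Set.mem_ofPred_eq]
          exact ⟨i.2, hi⟩
        · rintro ⟨_, ⟨i, hi, rfl⟩, rfl⟩
          simp only [Finset.coe_filter, Finset.mem_univ, true_and, Set.mem_ofPred_eq] at hi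
          obtain ⟨hi1, hi2⟩ := hi
          exact ⟨⟨i, hi1⟩, hi2, hlp i⟩
      rw [key S, key Sᶜ]
      convert h2 using 10
    · ext i
      simp only [Finset.mem_union, Finset.mem_filter, Finset.mem_univ, true_and]
      constructor
      · rintro (⟨h, -⟩ | ⟨h, -⟩) <;> exact h
      · intro h
        by_cases h' : (⟨i, h⟩ : I) ∈ S
        · exact Or.inl ⟨h, h'⟩
        · exact Or.inr ⟨h, h'⟩
    · rw [Finset.disjoint_left]
      simp only [Finset.mem_filter, Finset.mem_univ, true_and]
      rintro i ⟨h, h1⟩ ⟨h', h2⟩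
      exact h2 h1
    · obtain ⟨i, hi⟩ := hS
      exact ⟨i.1, by simpa using hi⟩
    · obtain ⟨i, hi⟩ := hS'
      exact ⟨i.1, by simpa using hi⟩

end Pool.Agent.ND
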